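import Pool.Agent.H48.SE.Core
import Pool.Graph.R_seed8.Y321.SEP.TransP

/-!
# Balanced matrices: both diagonal entries at least a quarter of the trace
-/

set_option autoImplicit false

namespace Pool.Agent.H48.SE

open Matrix Pool.Agent.TH441.SSE2 Pool.Agent.Y321.SE2

/-- From `[[α, β], [γ, δ]]` a balanced matrix is reached by a nonnegative change of basis. -/
def Bal4 (α β γ δ : ℤ) : Prop :=
  ∃ (V : Matrix (Fin 2) (Fin 2) ℤ) (α' β' γ' δ' : ℤ), NN V ∧ V.det = 1 ∧
    !![α, β; γ, δ] * V = V * !![α', β'; γ', δ'] ∧ 1 ≤ β' ∧ 1 ≤ γ' ∧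
    α' + δ' ≤ 4 * α' ∧ α' + δ' ≤ 4 * δ'

lemma Bal4.of (α β γ δ : ℤ) (hβ : 1 ≤ β) (hγ : 1 ≤ γ) (h1 : α + δ ≤ 4 * α)
    (h2 : α + δ ≤ 4 * δ) : Bal4 α β γ δ :=
  ⟨1, α, β, γ, δ, fun i j => by fin_cases i <;> fin_cases j <;> simp, by simp, by simp,
    hβ, hγ, h1, h2⟩

lemma Bal4.step {α β γ δ α₁ β₁ γ₁ δ₁ : ℤ} (V₁ : Matrix (Fin 2) (Fin 2) ℤ) (hV : NN V₁)
    (hd : V₁.det = 1) (hB : !![α, β; γ, δ] * V₁ = V₁ * !![α₁, β₁; γ₁, δ₁])
    (h : Bal4 α₁ β₁ γ₁ δ₁) : Bal4 α β γ δ := by
  obtain ⟨V, α', β', γ', δ', h1, h2, h3, h4, h5, h6, h7⟩ := h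
  refine ⟨V₁ * V, α', β', γ', δ', NN_mul hV h1, by rw [Matrix.det_mul, hd, h2, one_mul], ?_,
    h4, h5, h6, h7⟩
  rw [← Matrix.mul_assoc, hB, Matrix.mul_assoc, h3, Matrix.mul_assoc]

lemma Bal4.step1 {α β γ δ : ℤ} (h : Bal4 (α - γ) (α + β - γ - δ) γ (γ + δ)) : Bal4 α β γ δ := by
  refine Bal4.step !![1, 1; 0, 1] ?_ (by simp [Matrix.det_fin_two]) ?_ h
  · intro i j; fin_cases i <;> fin_cases j <;> simp
  · ext i j; fin_cases i <;> fin_cases j <;> simp [Matrix.mul_apply, Fin.sum_univ_two] <;> ring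

lemma Bal4.step2 {α β γ δ : ℤ} (h : Bal4 (α + β) β (γ + δ - α - β) (δ - β)) : Bal4 α β γ δ := by
  refine Bal4.step !![1, 0; 1, 1] ?_ (by simp [Matrix.det_fin_two]) ?_ h
  · intro i j; fin_cases i <;> fin_cases j <;> simp
  · ext i j; fin_cases i <;> fin_cases j <;> simp [Matrix.mul_apply, Fin.sum_univ_two] <;> ring

lemma Bal4.swap {α β γ δ : ℤ} (h : Bal4 δ γ β α) : Bal4 α β γ δ := by
  obtain ⟨V, α', β', γ', δ', h1, h2, h3, h4, h5, h6, h7⟩ := h
  refine ⟨!![V 1 1, V 1 0; V 0 1, V 0 0], δ', γ', β', α', ?_, ?_, ?_, h5, h4, by linarith,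
    by linarith⟩
  · intro i j
    have a1 := h1 0 0
    have a2 := h1 0 1
    have a3 := h1 1 0
    have a4 := h1 1 1
    fin_cases i <;> fin_cases j <;> simpa
  · rw [Matrix.det_fin_two] at h2 ⊢
    simp
    linarith
  · have e00 := congrFun (congrFun h3 0) 0
    have e01 := congrFun (congrFun h3 0) 1
    have e10 := congrFun (congrFun h3 1) 0
    have e11 := congrFun (congrFun h3 1) 1
    simp [Matrix.mul_apply, Fin.sum_univ_two] at e00 e01 e10 e11
    ext i j; fin_cases i <;> fin_cases j <;>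
      simp [Matrix.mul_apply, Fin.sum_univ_two] <;> linarith

lemma bal4_lo (n : ℕ) : ∀ (α β γ δ : ℤ), 1 ≤ β → 1 ≤ γ → 0 < α + δ → 4 * α < α + δ →
    4 * β ≤ 2 * (α + δ) → α + δ - 4 * α ≤ n → Bal4 α β γ δ := by
  induction n with
  | zero => intro α β γ δ _ _ _ h1 _ h2; push_cast at h2; linarith
  | succ n ih =>
    intro α β γ δ hβ hγ hT h1 h2 h3
    push_cast at h3
    have hw : 1 ≤ γ + δ - α - β := by
      have : 0 < δ - α - β := by linarith
      linarith
    apply Bal4.step2
    have e : α + β + (δ - β) = α + δ := by ring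
    rcases le_or_gt (α + δ) (4 * (α + β)) with h4 | h4
    · exact Bal4.of _ _ _ _ hβ hw (by linarith) (by linarith)
    · exact ih _ _ _ _ hβ hw (by linarith) (by linarith) (by linarith) (by linarith)

lemma bal4_lo' (α β γ δ : ℤ) (hβ : 1 ≤ β) (hγ : 1 ≤ γ) (hT : 0 < α + δ) (h1 : 4 * α < α + δ)
    (h2 : 4 * β ≤ 2 * (α + δ)) : Bal4 α β γ δ :=
  bal4_lo (α + δ - 4 * α).toNat α β γ δ hβ hγ hT h1 h2 (Int.self_le_toNat _)

/-- Every matrix on the river reaches a balanced one (both signs of `D = -det`). -/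
lemma bal4_all (T D : ℤ) (hT0 : 0 < T) (hTD : 16 * D ≤ T ^ 2)
    (hns : ¬ IsSquare (T ^ 2 + 4 * D)) (n : ℕ) : ∀ (α β γ δ : ℤ), 1 ≤ β → 1 ≤ γ →
    T = α + δ → D = β * γ - α * δ → β + γ ≤ n → Bal4 α β γ δ := by
  induction n with
  | zero => intro α β γ δ h1 h2 _ _ h3; push_cast at h3; linarith
  | succ n ih =>
    have main : ∀ (α β γ δ : ℤ), 1 ≤ β → 1 ≤ γ → T = α + δ → D = β * γ - α * δ →
        β + γ ≤ n + 1 → 4 * α < T → Bal4 α β γ δ := by
      intro α β γ δ hβ hγ hT hD hn hα
      rcases le_or_gt (4 * β) (2 * T) with h1 | h1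
      · exact bal4_lo' α β γ δ hβ hγ (by linarith) (by linarith) (by linarith)
      · have hw := sum_ne_zero hns hT hD
        rcases lt_or_gt_of_ne hw with h2 | h2
        · -- type 1
          apply Bal4.step1
          exact ih _ _ _ _ (by linarith) hγ (by linarith) (by rw [hD]; ring) (by linarith)
        · -- type 2
          apply Bal4.step2
          have hα₂ : T ≤ 4 * (α + β) := by
            rcases le_or_gt 0 α with h3 | h3
            · linarith
            · have h4 : 0 < β * γ := mul_pos (by linarith) (by linarith)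
              have h5 : (-α) * T ≤ D := by
                have h6 : 0 ≤ (-α) * (-α) := mul_nonneg (by linarith) (by linarith)
                have e : (-α) * T = (-α) * δ - (-α) * (-α) := by rw [hT]; ring
                have e' : D = β * γ + (-α) * δ := by rw [hD]; ring
                linarith
              have h7 : T * (16 * (-α)) ≤ T * T := by
                have e : T * (16 * (-α)) = 16 * ((-α) * T) := by ring
                have e' : T ^ 2 = T * T := by ring
                linarith
              have h8 := le_of_mul hT0 h7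
              linarith
          rcases le_or_gt T (4 * (δ - β)) with h3 | h3
          · exact Bal4.of _ _ _ _ hβ (by linarith) (by linarith) (by linarith)
          · -- `δ₂` small
            have hinv : β * (γ + δ - α - β) = D + (α + β) * (δ - β) := by rw [hD]; ring
            have hbd : 16 * ((α + β) * (δ - β)) ≤ 3 * (T * T) := by
              have h5 : 0 ≤ (T - 4 * (δ - β)) * (3 * T - 4 * (δ - β)) :=
                mul_nonneg (by linarith) (by linarith)
              have e : α + β = T - (δ - β) := by linarith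
              rw [e]
              linarith
            have h9 : 4 * (γ + δ - α - β) ≤ 2 * T := by
              have h4 : (2 * T) * (γ + δ - α - β) ≤ (4 * β) * (γ + δ - α - β) :=
                mul_le_mul_of_nonneg_right h1.le (by linarith)
              have h5 : T * (4 * (γ + δ - α - β)) ≤ T * (2 * T) := by
                have e1 : (4 * β) * (γ + δ - α - β) = 4 * (β * (γ + δ - α - β)) := by ring
                rw [e1, hinv] at h4
                have e5 : T ^ 2 = T * T := by ring
                linarith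
              exact le_of_mul hT0 h5
            apply Bal4.swap
            exact bal4_lo' _ _ _ _ (by linarith) hβ (by linarith) (by linarith) (by linarith)
    intro α β γ δ hβ hγ hT hD hn
    push_cast at hn
    rcases lt_or_ge (4 * α) T with h1 | h1
    · exact main α β γ δ hβ hγ hT hD hn h1
    · rcases lt_or_ge (4 * δ) T with h2 | h2
      · apply Bal4.swap
        exact main δ γ β α hγ hβ (by linarith) (by rw [hD]; ring) (by linarith) h2
      · exact Bal4.of _ _ _ _ hβ hγ (by linarith) (by linarith)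

/-- The core link, negative determinant, `e < 0`. -/
theorem core_e16 (p r s t e f g h T : ℤ) (hs : 0 ≤ s) (hps : s < p) (hrt : r < t)
    (hr : 0 ≤ r) (he : e < 0) (hg : 1 ≤ g)
    (hc : 1 ≤ s * e + t * g)
    (hT : T = (e * p + f * s) + (g * r + h * t))
    (hα : T ≤ 4 * (e * p + f * s)) (hδ : T ≤ 4 * (g * r + h * t)) (hT0 : 0 < T)
    (hD : 16 * ((p * t - r * s) * (f * g - e * h)) ≤ T ^ 2)
    (hw : (p - s) * (e + f) - (t - r) * (g + h) ≠ 0) :
    ∃ A' : Matrix (Fin 2) (Fin 2) ℤ, Sim A' (!![p, r; s, t] * !![e, f; g, h]) ∧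
      Q (!![e, f; g, h] * !![p, r; s, t]) A' := by
  obtain ⟨σ, hσ⟩ : ∃ σ, σ = -e := ⟨_, rfl⟩
  have he' : e = -σ := by linarith
  subst he'
  have hσ1 : 1 ≤ σ := by omega
  have hs1 : 1 ≤ s := by
    by_contra hneg
    push Not at hneg
    have h0 : s = 0 := by omega
    rw [h0] at hα
    have : 0 < σ * p := mul_pos (by linarith) (by linarith)
    linarith
  obtain ⟨a, rfl⟩ : ∃ a, p = a + s := ⟨p - s, by ring⟩
  obtain ⟨d, rfl⟩ : ∃ d, r = t - d := ⟨t - r, by ring⟩
  obtain ⟨φ, rfl⟩ : ∃ φ, f = φ + σ := ⟨f - σ, by ring⟩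
  obtain ⟨ψ, rfl⟩ : ∃ ψ, h = ψ - g := ⟨h + g, by ring⟩
  have ha : 1 ≤ a := by linarith
  have hd : 1 ≤ d := by linarith
  have ht : 1 ≤ t := by linarith
  have hφ : 1 ≤ φ := by
    have h1 : 0 < s * φ := by
      have : 0 < a * σ := mul_pos (by linarith) (by linarith)
      linarith
    exact (mul_pos_iff_of_pos_left (by linarith)).mp h1
  have hψ : 1 ≤ ψ := by
    have h1 : 0 < t * ψ := by
      have : 0 < d * g := mul_pos (by linarith) (by linarith)
      linarith
    exact (mul_pos_iff_of_pos_left (by linarith)).mp h1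
  obtain ⟨A', h1, h2⟩ := coreN a d s t σ g φ ψ T ha hd hs1 ht hσ1 hg hφ hψ
    (by rw [hT]; ring) (by linarith) (by linarith) hT0
    (by
      have e : (a * t + d * s) * (φ * g + σ * ψ) =
        ((a + s) * t - (t - d) * s) * ((φ + σ) * g - -σ * (ψ - g)) := by ring
      rw [e]; exact hD) (by linarith)
    (by
      intro h0
      apply hw
      linarith)
  refine ⟨A', h1.trans ⟨!![1, 1; 0, 1], by simp [Matrix.det_fin_two], ?_⟩, ?_⟩
  · ext i j; fin_cases i <;> fin_cases j <;>
      simp [Matrix.mul_apply, Fin.sum_univ_two] <;> ring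
  · have e : !![-σ, φ; g, ψ] * !![a, -d; s, t] =
        (!![-σ, φ + σ; g, ψ - g] * !![a + s, t - d; s, t] : Matrix (Fin 2) (Fin 2) ℤ) := by
      ext i j; fin_cases i <;> fin_cases j <;>
        simp [Matrix.mul_apply, Fin.sum_univ_two] <;> ring
    rw [e] at h2
    exact h2

theorem core_link16 (p r s t e f g h T : ℤ) (hs : 0 ≤ s) (hps : s < p) (hr : 0 ≤ r)
    (hrt : r < t) (hc : 1 ≤ s * e + t * g) (hb : 1 ≤ p * f + r * h)
    (hβ : 1 ≤ e * r + f * t) (hγ : 1 ≤ g * p + h * s)
    (hT : T = (e * p + f * s) + (g * r + h * t))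
    (hα : T ≤ 4 * (e * p + f * s)) (hδ : T ≤ 4 * (g * r + h * t)) (hT0 : 0 < T)
    (hE : 0 < f * g - e * h)
    (hD : 16 * ((p * t - r * s) * (f * g - e * h)) ≤ T ^ 2)
    (hw : (p - s) * (e + f) - (t - r) * (g + h) ≠ 0) :
    ∃ A' : Matrix (Fin 2) (Fin 2) ℤ, Sim A' (!![p, r; s, t] * !![e, f; g, h]) ∧
      Q (!![e, f; g, h] * !![p, r; s, t]) A' := by
  have hg := g_pos hs hps hr hrt hc hb hγ hE
  have hf := f_pos hs hps hr hrt hg hb hβ hE
  rcases lt_or_ge e 0 with he | he
  · exact core_e16 p r s t e f g h T hs hps hrt hr he hg hc hT hα hδ hT0 hD hw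
  · rcases lt_or_ge h 0 with hh | hh
    · obtain ⟨A', h1, h2⟩ := core_e16 t s r p h g f e T hr hrt hps hs hh hf (by linarith)
        (by rw [hT]; ring) (by linarith) (by linarith) hT0
        (by
          have e1 : (t * p - s * r) * (g * f - h * e) = (p * t - r * s) * (f * g - e * h) := by
            ring
          rw [e1]; exact hD)
        (by
          intro h0
          apply hw
          linarith)
      refine ⟨A', h1.trans ⟨!![0, 1; 1, 0], by simp [Matrix.det_fin_two], ?_⟩, ?_⟩
      · ext i j; fin_cases i <;> fin_cases j <;>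
          simp [Matrix.mul_apply, Fin.sum_univ_two] <;> ring
      · have e1 : (!![h, g; f, e] * !![t, s; r, p] : Matrix (Fin 2) (Fin 2) ℤ) =
            !![g * r + h * t, g * p + h * s; e * r + f * t, e * p + f * s] := by
          ext i j; fin_cases i <;> fin_cases j <;>
            simp [Matrix.mul_apply, Fin.sum_univ_two] <;> ring
        have e2 : (!![e, f; g, h] * !![p, r; s, t] : Matrix (Fin 2) (Fin 2) ℤ) =
            !![e * p + f * s, e * r + f * t; g * p + h * s, g * r + h * t] := by
          ext i j; fin_cases i <;> fin_cases j <;>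
            simp [Matrix.mul_apply, Fin.sum_univ_two]
        rw [e1] at h2
        rw [e2]
        exact (Q.swap _ _ _ _ (by linarith) (by linarith) (by linarith) (by linarith)).trans h2
    · refine ⟨!![p, r; s, t] * !![e, f; g, h], Sim.refl _, ?_⟩
      refine Q.of_elem !![e, f; g, h] !![p, r; s, t] ?_ ?_ rfl rfl
      · intro i j; fin_cases i <;> fin_cases j <;> simp <;> linarith
      · intro i j; fin_cases i <;> fin_cases j <;> simp <;> linarith

theorem core_eP16 (p r s t e f σ h T : ℤ) (hs : 0 ≤ s) (hps : s < p) (hr : 0 ≤ r) (hrt : r < t)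
    (hσ : 1 ≤ σ) (hc : 1 ≤ s * e - t * σ)
    (hβ : 1 ≤ r * e + t * f) (hγ : 1 ≤ s * h - p * σ)
    (hT : T = (p * e + s * f) + (t * h - r * σ))
    (hα : T ≤ 4 * (p * e + s * f)) (hδ : T ≤ 4 * (t * h - r * σ)) (hT0 : 0 < T)
    (hD : 16 * ((p * t - r * s) * (e * h + f * σ)) ≤ T ^ 2)
    (hw : (p - s) * (e + f) - (t - r) * (h - σ) ≠ 0) :
    ∃ A' : Matrix (Fin 2) (Fin 2) ℤ, Sim A' (!![p, r; s, t] * !![e, f; -σ, h]) ∧
      Q (!![e, f; -σ, h] * !![p, r; s, t]) A' := by
  have hpσ : 0 < p * σ := mul_pos (by linarith) (by linarith)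
  have htσ : 0 < t * σ := mul_pos (by linarith) (by linarith)
  have hs1 : 1 ≤ s := by
    by_contra hneg
    have h0 : s = 0 := by omega
    rw [h0, zero_mul] at hγ
    linarith
  have he : 1 ≤ e := by
    by_contra hneg
    push Not at hneg
    have : s * e ≤ 0 := mul_nonpos_of_nonneg_of_nonpos hs (by linarith)
    linarith
  obtain ⟨a, rfl⟩ : ∃ a, p = a + s := ⟨p - s, by ring⟩
  obtain ⟨d, rfl⟩ : ∃ d, r = t - d := ⟨t - r, by ring⟩
  obtain ⟨φ, rfl⟩ : ∃ φ, f = φ - e := ⟨f + e, by ring⟩
  obtain ⟨ψ, rfl⟩ : ∃ ψ, h = ψ + σ := ⟨h - σ, by ring⟩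
  have ha : 1 ≤ a := by linarith
  have hd : 1 ≤ d := by linarith
  have ht : 1 ≤ t := by linarith
  have hφ : 1 ≤ φ := by
    have h1 : 0 < t * φ := by
      have : 0 < d * e := mul_pos (by linarith) (by linarith)
      linarith
    exact (mul_pos_iff_of_pos_left (by linarith)).mp h1
  have hψ : 1 ≤ ψ := by
    have h1 : 0 < s * ψ := by
      have : 0 < a * σ := mul_pos (by linarith) (by linarith)
      linarith
    exact (mul_pos_iff_of_pos_left (by linarith)).mp h1
  obtain ⟨A', h1, h2⟩ := coreP a d s t e σ φ ψ T ha hd hs1 ht he hσ hφ hψ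
    (by rw [hT]; ring) (by linarith) (by linarith) hT0
    (by
      have e : (a * t + d * s) * (e * ψ + σ * φ) =
        ((a + s) * t - (t - d) * s) * (e * (ψ + σ) + (φ - e) * σ) := by ring
      rw [e]; exact hD) (by linarith) (by linarith) (by linarith)
    (by
      intro h0
      apply hw
      linarith)
  refine ⟨A', h1.trans ⟨!![1, 1; 0, 1], by simp [Matrix.det_fin_two], ?_⟩, ?_⟩
  · ext i j; fin_cases i <;> fin_cases j <;>
      simp [Matrix.mul_apply, Fin.sum_univ_two] <;> ring
  · have e : !![e, φ; -σ, ψ] * !![a, -d; s, t] =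
        (!![e, φ - e; -σ, ψ + σ] * !![a + s, t - d; s, t] : Matrix (Fin 2) (Fin 2) ℤ) := by
      ext i j; fin_cases i <;> fin_cases j <;>
        simp [Matrix.mul_apply, Fin.sum_univ_two] <;> ring
    rw [e] at h2
    exact h2

/-- The core link for positive determinant. -/
theorem core_linkP16 (p r s t e f g h T : ℤ) (hs : 0 ≤ s) (hps : s < p) (hr : 0 ≤ r) (hrt : r < t)
    (hc : 1 ≤ s * e + t * g) (hb : 1 ≤ p * f + r * h)
    (hβ : 1 ≤ e * r + f * t) (hγ : 1 ≤ g * p + h * s)
    (hT : T = (e * p + f * s) + (g * r + h * t))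
    (hα : T ≤ 4 * (e * p + f * s)) (hδ : T ≤ 4 * (g * r + h * t)) (hT0 : 0 < T)
    (hE : 0 < e * h - f * g)
    (hD : 16 * ((p * t - r * s) * (e * h - f * g)) ≤ T ^ 2)
    (hw : (p - s) * (e + f) - (t - r) * (g + h) ≠ 0) :
    ∃ A' : Matrix (Fin 2) (Fin 2) ℤ, Sim A' (!![p, r; s, t] * !![e, f; g, h]) ∧
      Q (!![e, f; g, h] * !![p, r; s, t]) A' := by
  rcases lt_or_ge g 0 with hg | hg
  · obtain ⟨σ, hσ⟩ : ∃ σ, σ = -g := ⟨_, rfl⟩
    have hg' : g = -σ := by linarith
    subst hg'
    exact core_eP16 p r s t e f σ h T hs hps hr hrt (by omega) (by linarith) (by linarith)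
      (by linarith) (by rw [hT]; ring) (by linarith) (by linarith) hT0
      (by
        have e1 : (p * t - r * s) * (e * h + f * σ) = (p * t - r * s) * (e * h - f * -σ) := by
          ring
        rw [e1]; exact hD)
      (by
        intro h0
        apply hw
        linarith)
  · rcases lt_or_ge f 0 with hf | hf
    · obtain ⟨σ, hσ⟩ : ∃ σ, σ = -f := ⟨_, rfl⟩
      have hf' : f = -σ := by linarith
      subst hf'
      obtain ⟨A', h1, h2⟩ := core_eP16 t s r p h g σ e T hr hrt hs hps (by omega) (by linarith)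
        (by linarith) (by linarith) (by rw [hT]; ring) (by linarith) (by linarith) hT0
        (by
          have e1 : (t * p - s * r) * (h * e + g * σ) = (p * t - r * s) * (e * h - -σ * g) := by
            ring
          rw [e1]; exact hD)
        (by
          intro h0
          apply hw
          linarith)
      refine ⟨A', h1.trans ⟨!![0, 1; 1, 0], by simp [Matrix.det_fin_two], ?_⟩, ?_⟩
      · ext i j; fin_cases i <;> fin_cases j <;>
          simp [Matrix.mul_apply, Fin.sum_univ_two] <;> ring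
      · have e1 : (!![h, g; -σ, e] * !![t, s; r, p] : Matrix (Fin 2) (Fin 2) ℤ) =
            !![g * r + h * t, g * p + h * s; e * r + -σ * t, e * p + -σ * s] := by
          ext i j; fin_cases i <;> fin_cases j <;>
            simp [Matrix.mul_apply, Fin.sum_univ_two] <;> ring
        have e2 : (!![e, -σ; g, h] * !![p, r; s, t] : Matrix (Fin 2) (Fin 2) ℤ) =
            !![e * p + -σ * s, e * r + -σ * t; g * p + h * s, g * r + h * t] := by
          ext i j; fin_cases i <;> fin_cases j <;>
            simp [Matrix.mul_apply, Fin.sum_univ_two]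
        rw [e1] at h2
        rw [e2]
        exact (Q.swap _ _ _ _ (by linarith) (by linarith) (by linarith) (by linarith)).trans h2
    · -- nonnegative `S`
      have hfg : 0 ≤ f * g := mul_nonneg hf hg
      have heh : 0 < e * h := by linarith
      have hpos : 0 ≤ e ∧ 0 ≤ h := by
        rcases pos_and_pos_or_neg_and_neg_of_mul_pos heh with ⟨h1, h2⟩ | ⟨h1, h2⟩
        · exact ⟨h1.le, h2.le⟩
        · exfalso
          have k1 : p * (-e) < s * f := by linarith
          have k2 : t * (-h) < r * g := by linarith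
          have k3 : s * (-e) ≤ p * (-e) := mul_le_mul_of_nonneg_right hps.le (by linarith)
          have k4 : r * (-h) ≤ t * (-h) := mul_le_mul_of_nonneg_right hrt.le (by linarith)
          have hs1 : 0 < s := by
            rcases hs.lt_or_eq with h3 | h3
            · exact h3
            · rw [← h3, zero_mul] at k1
              have := mul_nonneg (show (0 : ℤ) ≤ p by linarith) (show (0 : ℤ) ≤ -e by linarith)
              linarith
          have hr1 : 0 < r := by
            rcases hr.lt_or_eq with h3 | h3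
            · exact h3
            · rw [← h3, zero_mul] at k2
              have := mul_nonneg (show (0 : ℤ) ≤ t by linarith) (show (0 : ℤ) ≤ -h by linarith)
              linarith
          have k5 : -e < f := lt_of_mul_lt_mul_left (by linarith) hs1.le
          have k6 : -h < g := lt_of_mul_lt_mul_left (by linarith) hr1.le
          have k7 : (-e) * (-h) ≤ f * g := mul_le_mul k5.le k6.le (by linarith) hf
          linarith
      obtain ⟨he, hh⟩ := hpos
      refine ⟨!![p, r; s, t] * !![e, f; g, h], Sim.refl _, ?_⟩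
      refine Q.of_elem !![e, f; g, h] !![p, r; s, t] ?_ ?_ rfl rfl
      · intro i j; fin_cases i <;> fin_cases j <;> simp <;> linarith
      · intro i j; fin_cases i <;> fin_cases j <;> simp <;> linarith

end Pool.Agent.H48.SE
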