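import Pool.Graph.R_seed8.Y321.SE2.Conn

/-!
# Connectivity of the presentations at a fixed level

The valid presentations at level `l` are the lattice points of a box; all of them are linked as
soon as the sum of the two sides of the box is at least `4 l` (no condition on `b`).
-/

set_option autoImplicit false

namespace Pool.Agent.H48.SE

open Matrix Pool.Agent.TH441.SSE2 Pool.Agent.Y321.SE2

/-- Valid presentations. -/
def Val (x b c y l s t : ℤ) : Prop :=
  InH l s t ∧ InH l (s - x) (t + c) ∧ InH l (b + l * x - 2 * l * s) (y - l * c - 2 * l * t)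

/-- Two neighbouring valid presentations on the same row are linked. -/
lemma step_row (x b c y l s t : ℤ) (hl : 1 ≤ l) (hc : 0 ≤ c) (h4 : 4 * l + |x| ≤ y) (h4' : 4 * l + l * c ≤ y)
    (hv : Val x b c y l s t) (hv' : Val x b c y l (s + 1) t) :
    Q (W x b c y l s t) (W x b c y l (s + 1) t) := by
  obtain ⟨⟨h11, h12, h13⟩, ⟨h21, h22, h23⟩, ⟨h31, h32, h33⟩⟩ := hv
  obtain ⟨⟨k11, k12, k13⟩, ⟨k21, k22, k23⟩, ⟨k31, k32, k33⟩⟩ := hv'
  have hx1 := le_abs_self x
  have hx2 := neg_abs_le x
  -- the two quotients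
  obtain ⟨Ma, hMa⟩ : ∃ M, M = l * (y - l * c) + b + l * x := ⟨_, rfl⟩
  obtain ⟨Mb, hMb⟩ : ∃ M, M = l * (y - l * c) - b - l * x := ⟨_, rfl⟩
  have l2 : (0 : ℤ) < 2 * l := by linarith
  have da1 := Int.emod_add_mul_ediv Ma (2 * l)
  have da2 := Int.emod_nonneg Ma l2.ne'
  have da3 := Int.emod_lt_of_pos Ma l2
  have db1 := Int.emod_add_mul_ediv Mb (2 * l)
  have db2 := Int.emod_nonneg Mb l2.ne'
  have db3 := Int.emod_lt_of_pos Mb l2
  obtain ⟨qa, hqa⟩ : ∃ q, q = Ma / (2 * l) := ⟨_, rfl⟩
  obtain ⟨qb, hqb⟩ : ∃ q, q = Mb / (2 * l) := ⟨_, rfl⟩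
  rw [← hqa] at da1
  rw [← hqb] at db1
  obtain ⟨a, ha⟩ : ∃ a, a = l * t + s := ⟨_, rfl⟩
  obtain ⟨b1, hb1⟩ : ∃ a, a = l * t - s := ⟨_, rfl⟩
  have ea : a + 1 ≤ qa := by
    have h1 : 2 * l * (a + 1) ≤ Ma := by rw [ha, hMa]; linarith
    have h2 : 2 * l * (a + 1) < 2 * l * (qa + 1) := by linarith
    have h3 := lt_of_mul_lt_mul_left h2 l2.le
    linarith
  have eb : b1 ≤ qb := by
    have h1 : 2 * l * b1 ≤ Mb := by rw [hb1, hMb]; linarith
    have h2 : 2 * l * b1 < 2 * l * (qb + 1) := by linarith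
    have h3 := lt_of_mul_lt_mul_left h2 l2.le
    linarith
  have eab : y - l * c - 1 ≤ qa + qb := by
    have h1 : Ma + Mb = 2 * l * (y - l * c) := by rw [hMa, hMb]; ring
    have h2 : 2 * l * (y - l * c) < 2 * l * (qa + qb + 2) := by linarith
    have h3 := lt_of_mul_lt_mul_left h2 l2.le
    linarith
  rcases le_or_gt (2 * l) ((qa - a) + (qb - b1)) with hc1 | hc1
  · -- a common upper bound
    obtain ⟨k, k1, k2, k3, k4⟩ : ∃ k, k ≤ l ∧ 1 - l ≤ k ∧ k ≤ qa - a - l ∧ l - (qb - b1) ≤ k := by
      rcases le_total (qa - a - l) l with h | h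
      · exact ⟨qa - a - l, h, by linarith, le_rfl, by linarith⟩
      · exact ⟨l, le_rfl, by linarith, h, by linarith⟩
    have e1 : 0 ≤ Ma - 2 * l * (a + l + k) := by
      have : 2 * l * (a + l + k) ≤ 2 * l * qa := mul_le_mul_of_nonneg_left (by linarith) l2.le
      linarith
    have e2 : 0 ≤ Mb - 2 * l * (b1 + l - k) := by
      have : 2 * l * (b1 + l - k) ≤ 2 * l * qb := mul_le_mul_of_nonneg_left (by linarith) l2.le
      linarith
    have e3 : InH l (b + l * x - 2 * l * (s + k)) (y - l * c - 2 * l * (t + 1)) :=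
      mkInH hl (by rw [hMa, ha] at e1; linarith) (by rw [hMb, hb1] at e2; linarith)
    have q1 := move_add x b c y l s t k 1 (by linarith) ⟨h11, h12, h13⟩
      ⟨by norm_num, by linarith, by linarith⟩ e3 ⟨h21, h22, h23⟩
    have q2 := move_add x b c y l (s + 1) t (k - 1) 1 (by linarith) ⟨k11, k12, k13⟩
      ⟨by norm_num, by linarith, by linarith⟩
      (by
        have e : s + 1 + (k - 1) = s + k := by ring
        rw [e]; exact e3) ⟨k21, k22, k23⟩
    have e : s + 1 + (k - 1) = s + k := by ring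
    rw [e] at q2
    exact q1.symm.trans q2
  · -- a common lower bound
    have hrow : y - l * c - 2 * l ≤ a + b1 := by linarith
    obtain ⟨am, am1, am2, am3, am4⟩ : ∃ am : ℤ, 0 ≤ am ∧ x - l * c ≤ am ∧ am ≤ a ∧
        (am = 0 ∨ am = x - l * c) := by
      rcases le_total 0 (x - l * c) with h | h
      · exact ⟨x - l * c, h, le_rfl, by rw [ha]; linarith, Or.inr rfl⟩
      · exact ⟨0, le_rfl, h, by rw [ha]; linarith, Or.inl rfl⟩
    obtain ⟨bm, bm1, bm2, bm3, bm4⟩ : ∃ bm : ℤ, 0 ≤ bm ∧ -x - l * c ≤ bm ∧ bm + 1 ≤ b1 ∧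
        (bm = 0 ∨ bm = -x - l * c) := by
      rcases le_total 0 (-x - l * c) with h | h
      · exact ⟨-x - l * c, h, le_rfl, by rw [hb1]; linarith, Or.inr rfl⟩
      · exact ⟨0, le_rfl, h, by rw [hb1]; linarith, Or.inl rfl⟩
    have hsum : 2 * l ≤ (a - am) + (b1 - bm) := by
      have hab : 0 ≤ |x| := abs_nonneg x
      rcases am4 with h | h <;> rcases bm4 with h' | h' <;> rw [h, h']
      · linarith
      · linarith
      · linarith
      · -- both nonzero: impossible unless degenerate
        have e1 : a = l * t + s := ha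
        have e2 : b1 = l * t - s := hb1
        -- here `0 ≤ am` and `0 ≤ bm`
        rw [h] at am1
        rw [h'] at bm1
        have hlc : 0 ≤ l * c := mul_nonneg (by linarith) hc
        linarith
    obtain ⟨k, k1, k2, k3, k4⟩ : ∃ k, k ≤ l ∧ 1 - l ≤ k ∧ k ≤ b1 - bm - l ∧ l - (a - am) ≤ k := by
      rcases le_total (b1 - bm - l) l with h | h
      · exact ⟨b1 - bm - l, h, by linarith, le_rfl, by linarith⟩
      · exact ⟨l, le_rfl, by linarith, h, by linarith⟩
    have e1 : InH l (s + k) (t - 1) := mkInH hl (by rw [ha] at k4; linarith)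
      (by rw [hb1] at k3; linarith)
    have e2 : InH l (s + k - x) (t - 1 + c) := mkInH hl (by rw [ha] at k4; linarith)
      (by rw [hb1] at k3; linarith)
    have q1 := move_add x b c y l (s + k) (t - 1) (-k) 1 (by linarith) e1
      ⟨by norm_num, by linarith, by linarith⟩
      (by
        have e : s + k + -k = s := by ring
        have e' : t - 1 + 1 = t := by ring
        rw [e, e']; exact ⟨h31, h32, h33⟩) e2
    have q2 := move_add x b c y l (s + k) (t - 1) (1 - k) 1 (by linarith) e1
      ⟨by norm_num, by linarith, by linarith⟩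
      (by
        have e : s + k + (1 - k) = s + 1 := by ring
        have e' : t - 1 + 1 = t := by ring
        rw [e, e']; exact ⟨k31, k32, k33⟩) e2
    have e : s + k + -k = s := by ring
    have e' : t - 1 + 1 = t := by ring
    have e'' : s + k + (1 - k) = s + 1 := by ring
    rw [e, e'] at q1
    rw [e'', e'] at q2
    exact q1.trans q2.symm

/-- Valid presentations on the same row are linked. -/
lemma row (x b c y l t : ℤ) (hl : 1 ≤ l) (hc : 0 ≤ c) (h4 : 4 * l + |x| ≤ y) (h4' : 4 * l + l * c ≤ y)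
    (n : ℕ) : ∀ s : ℤ, Val x b c y l s t → Val x b c y l (s + n) t →
      Q (W x b c y l s t) (W x b c y l (s + n) t) := by
  induction n with
  | zero => intro s _ _; simpa using Q.refl _
  | succ n ih =>
    intro s hv hv'
    have hn : (0 : ℤ) ≤ n := Int.natCast_nonneg n
    have hv1 : Val x b c y l (s + 1) t := by
      obtain ⟨⟨h11, h12, h13⟩, ⟨h21, h22, h23⟩, ⟨h31, h32, h33⟩⟩ := hv
      obtain ⟨⟨k11, k12, k13⟩, ⟨k21, k22, k23⟩, ⟨k31, k32, k33⟩⟩ := hv'
      push_cast at k12 k13 k22 k23 k32 k33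
      have hln : 0 ≤ l * n := mul_nonneg (by linarith) hn
      exact ⟨⟨h11, by linarith, by linarith⟩, ⟨h21, by linarith, by linarith⟩,
        ⟨h31, by linarith, by linarith⟩⟩
    have e : s + ((n + 1 : ℕ) : ℤ) = s + 1 + n := by push_cast; ring
    rw [e] at hv' ⊢
    exact (step_row x b c y l s t hl hc h4 h4' hv hv1).trans (ih (s + 1) hv1 hv')

lemma row' (x b c y l s s' t : ℤ) (hl : 1 ≤ l) (hc : 0 ≤ c) (h4 : 4 * l + |x| ≤ y) (h4' : 4 * l + l * c ≤ y)
    (hv : Val x b c y l s t) (hv' : Val x b c y l s' t) :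
    Q (W x b c y l s t) (W x b c y l s' t) := by
  rcases le_total s s' with h | h
  · have e : s + ((s' - s).toNat : ℤ) = s' := by
      rw [Int.toNat_of_nonneg (by linarith)]; ring
    have := row x b c y l t hl hc h4 h4' (s' - s).toNat s hv (by rw [e]; exact hv')
    rwa [e] at this
  · have e : s' + ((s - s').toNat : ℤ) = s := by
      rw [Int.toNat_of_nonneg (by linarith)]; ring
    have := row x b c y l t hl hc h4 h4' (s - s').toNat s' hv' (by rw [e]; exact hv)
    rw [e] at this
    exact this.symm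

lemma up (x b c y l : ℤ) (hl : 1 ≤ l) (hc : 0 ≤ c) (h4 : 4 * l + |x| ≤ y) (h4' : 4 * l + l * c ≤ y)
    (n : ℕ) : ∀ s t s' t' : ℤ, Val x b c y l s t → Val x b c y l s' t' → t' = t + n →
      Q (W x b c y l s t) (W x b c y l s' t') := by
  induction n with
  | zero =>
    intro s t s' t' hv hv' ht
    have : t' = t := by simpa using ht
    rw [this] at hv' ⊢
    exact row' x b c y l s s' t hl hc h4 h4' hv hv'
  | succ n ih =>
    intro s t s' t' hv hv' ht
    push_cast at ht
    have hn : (0 : ℤ) ≤ n := Int.natCast_nonneg n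
    have hvv := hv
    have hvv' := hv'
    obtain ⟨⟨h11, h12, h13⟩, ⟨h21, h22, h23⟩, ⟨h31, h32, h33⟩⟩ := hv
    obtain ⟨⟨k11, k12, k13⟩, ⟨k21, k22, k23⟩, ⟨k31, k32, k33⟩⟩ := hv'
    have hln : 0 ≤ l * n := mul_nonneg (by linarith) hn
    rcases le_or_gt (s' - s) (l * (t' - t)) with c1 | c1
    · rcases le_or_gt (-(l * (t' - t))) (s' - s) with c2 | c2
      · have := move_add x b c y l s t (s' - s) (t' - t) (by linarith) ⟨h11, h12, h13⟩
          ⟨by linarith, c2, c1⟩ (by
            rw [add_sub_cancel, add_sub_cancel]; exact ⟨k31, k32, k33⟩) ⟨h21, h22, h23⟩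
        rw [add_sub_cancel, add_sub_cancel] at this
        exact this.symm
      · -- `s'` far to the left
        have e3 : InH l (b + l * x - 2 * l * (s - l)) (y - l * c - 2 * l * (t + 1)) := by
          refine mkInH hl ?_ ?_
          · linarith
          · have h1 : l * ((l * t - s) + 2 * l) ≤ l * (l * t' - s') := by
              refine mul_le_mul_of_nonneg_left ?_ (by linarith)
              rw [ht] at c2 ⊢
              linarith
            linarith
        have hv1 : Val x b c y l (s - l) (t + 1) :=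
          ⟨⟨by linarith, by linarith, by linarith⟩, ⟨by linarith, by linarith, by linarith⟩, e3⟩
        have q1 := move_add x b c y l s t (-l) 1 (by linarith) ⟨h11, h12, h13⟩
          ⟨by norm_num, by linarith, by linarith⟩ (by
            have e : s + -l = s - l := by ring
            rw [e]; exact e3) ⟨h21, h22, h23⟩
        have e : s + -l = s - l := by ring
        rw [e] at q1
        exact q1.symm.trans (ih (s - l) (t + 1) s' t' hv1 hvv' (by rw [ht]; ring))
    · -- `s'` far to the right
      have e3 : InH l (b + l * x - 2 * l * (s + l)) (y - l * c - 2 * l * (t + 1)) := by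
        refine mkInH hl ?_ ?_
        · have h1 : l * ((l * t + s) + 2 * l) ≤ l * (l * t' + s') := by
            refine mul_le_mul_of_nonneg_left ?_ (by linarith)
            rw [ht] at c1 ⊢
            linarith
          linarith
        · linarith
      have hv1 : Val x b c y l (s + l) (t + 1) :=
        ⟨⟨by linarith, by linarith, by linarith⟩, ⟨by linarith, by linarith, by linarith⟩, e3⟩
      have q1 := move_add x b c y l s t l 1 (by linarith) ⟨h11, h12, h13⟩
        ⟨by norm_num, by linarith, by linarith⟩ e3 ⟨h21, h22, h23⟩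
      exact q1.symm.trans (ih (s + l) (t + 1) s' t' hv1 hvv' (by rw [ht]; ring))

/-- All valid presentations at level `l` are linked. -/
lemma box (x b c y l s t s' t' : ℤ) (hl : 1 ≤ l) (hc : 0 ≤ c) (h4 : 4 * l + |x| ≤ y)
    (h4' : 4 * l + l * c ≤ y) (hv : Val x b c y l s t) (hv' : Val x b c y l s' t') :
    Q (W x b c y l s t) (W x b c y l s' t') := by
  rcases le_total t t' with h | h
  · exact up x b c y l hl hc h4 h4' (t' - t).toNat s t s' t' hv hv'
      (by rw [Int.toNat_of_nonneg (by linarith)]; ring)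
  · exact (up x b c y l hl hc h4 h4' (t - t').toNat s' t' s t hv' hv
      (by rw [Int.toNat_of_nonneg (by linarith)]; ring)).symm

end Pool.Agent.H48.SE
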