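import Pool.Agent.H48.SE.Box
import Pool.Graph.R_seed8.Y321.SEP.LinkP

/-!
# Presentations on wide cones, nonnegative corner entry, sharper hypotheses
-/

set_option autoImplicit false

namespace Pool.Agent.H48.SE

open Matrix Pool.Agent.TH441.SSE2 Pool.Agent.Y321.SE2

/-- The bound for the canonical heights. -/
lemma two_t {z A m t : ℤ} (hA2 : 2 * A ≤ z + 1) (hA0 : 1 ≤ A) (hm : 1 ≤ m) (hmz : m ≤ z - 1)
    (h6 : m * t ≤ A + m - 1) : 2 * (m + 1) * t ≤ 2 * z + 2 := by
  rcases le_or_gt A m with h | h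
  · have ht : t ≤ 1 := by
      by_contra hneg
      push Not at hneg
      have : m * 2 ≤ m * t := mul_le_mul_of_nonneg_left (by linarith) (by linarith)
      linarith
    have : 2 * (m + 1) * t ≤ 2 * (m + 1) * 1 := mul_le_mul_of_nonneg_left ht (by linarith)
    linarith
  · have h1 : A + m - 1 ≤ m * (A - m + 1) := by
      have : 0 ≤ (m - 1) * (A - m - 1) := mul_nonneg (by linarith) (by linarith)
      linarith
    have ht : t ≤ A - m + 1 := by
      by_contra hneg
      push Not at hneg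
      have : m * (A - m + 1 + 1) ≤ m * t := mul_le_mul_of_nonneg_left (by linarith) (by linarith)
      linarith
    linarith

/-- Extended fan lemma for a nonnegative corner entry. -/
lemma fan_neg (z b c y j l : ℤ) (hz : 1 ≤ z) (hc : 1 ≤ c) (hj : z ≤ j * c)
    (hj' : j * c < z + c) (hl : 1 ≤ l) (hlj : l ≤ j)
    (h1 : |b| + 1 ≤ l * (y - 3 * z - c - 2)) :
    Q (K1 (-z) b c y j)
      (W (-z) b c y l (-((z + 1) / 2)) (((z + 1) / 2 + l - 1) / l)) := by
  obtain ⟨A, hAdef⟩ : ∃ A, A = (z + 1) / 2 := ⟨_, rfl⟩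
  rw [← hAdef]
  have hA1 : z ≤ 2 * A := by omega
  have hA2 : 2 * A ≤ z + 1 := by omega
  have hb := abs_nonneg b
  have hbl := neg_abs_le b
  have hbu := le_abs_self b
  have hApos : 1 ≤ A := by linarith
  have hZ : 1 ≤ y - 3 * z - c - 2 := by
    by_contra hneg
    push Not at hneg
    nlinarith
  have hj1 : 1 ≤ j := le_trans hl hlj
  have hjx : j ≤ z := by
    have : (j - 1) * c ≤ z - 1 := by linarith
    nlinarith
  have hT : ∀ m : ℤ, 1 ≤ m → A ≤ m * ((A + m - 1) / m) ∧ m * ((A + m - 1) / m) ≤ A + m - 1 :=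
    fun m hm => ceil_spec A m hm
  have hbm : ∀ m : ℤ, l ≤ m → |b| + 1 ≤ m * (y - 3 * z - c - 2) := by
    intro m hm
    have : l * (y - 3 * z - c - 2) ≤ m * (y - 3 * z - c - 2) :=
      mul_le_mul_of_nonneg_right hm (by linarith)
    linarith
  have hx2 : ∀ k : ℤ, 0 ≤ k → b + k * (-z) - 2 * k * (-A) ≤ |b| + k ∧
      -(|b| + k) ≤ b + k * (-z) - 2 * k * (-A) := by
    intro k hk
    have e1 : 0 ≤ k * (2 * A - z) := mul_nonneg hk (by linarith)
    have e2 : 0 ≤ k * (z + 1 - 2 * A) := mul_nonneg hk (by linarith)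
    constructor <;> linarith
  -- start
  have s1 : Q (K1 (-z) b c y j) (W (-z) b c y j 0 0) := by
    refine move_start (-z) b c y j ⟨by linarith, by linarith, by linarith⟩ ?_
    have hbj := hbm j hlj
    have e13 : 0 ≤ j * z := mul_nonneg (by linarith) (by linarith)
    have e14 : 0 ≤ j * (z + c - 1 - j * c) := mul_nonneg (by linarith) (by linarith)
    exact InH.of_abs (B := |b|) (l := j * z) hj1 (by linarith) (by linarith) hb
      (by linarith) (by nlinarith)
  have s2 : Q (W (-z) b c y j 0 0) (W (-z) b c y j (-A) ((A + j - 1) / j)) := by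
    obtain ⟨h5, h6⟩ := hT j hj1
    obtain ⟨t, ht⟩ : ∃ t, t = (A + j - 1) / j := ⟨_, rfl⟩
    rw [← ht] at h5 h6 ⊢
    have h := move_add (-z) b c y j 0 0 (-A) t (by linarith)
      ⟨le_refl _, by simp, by simp⟩ ?_ ?_ ?_
    · simpa using h.symm
    · exact ⟨nonneg_of_mul hj1 (by linarith) h5, by linarith, by linarith⟩
    · have hbj := hbm j hlj
      have hh := hx2 j (by linarith)
      rw [zero_add, zero_add]
      refine InH.of_abs hj1 hh.1 hh.2 hb (by linarith) ?_
      have e1 : 2 * j * t ≤ 2 * z := by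
        rcases le_or_gt A j with h | h
        · have ht1 : t ≤ 1 := by
            by_contra hneg
            push Not at hneg
            have : j * 2 ≤ j * t := mul_le_mul_of_nonneg_left (by linarith) (by linarith)
            linarith
          have : 2 * j * t ≤ 2 * j * 1 := mul_le_mul_of_nonneg_left ht1 (by linarith)
          linarith
        · linarith
      have e2 : 0 ≤ j * (2 * z - 2 * j * t) := mul_nonneg (by linarith) (by linarith)
      have e3 : 0 ≤ j * (z + c - 1 - j * c) := mul_nonneg (by linarith) (by linarith)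
      nlinarith
    · exact ⟨by linarith, by linarith, by linarith⟩
  -- descent
  have hshift : ∀ m t : ℤ, 1 ≤ m → 0 ≤ t → A ≤ m * t → InH m (-A - -z) (t + c) := by
    intro m t hm ht h5
    have h : m * (t + c) = m * t + m * c := by ring
    have h' : 1 * 1 ≤ m * c := mul_le_mul hm hc (by norm_num) (by linarith)
    exact ⟨by linarith, by linarith, by linarith⟩
  have key : ∀ n : ℕ, ∀ m : ℤ, l ≤ m → m + n = j →
      Q (K1 (-z) b c y j) (W (-z) b c y m (-A) ((A + m - 1) / m)) := by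
    intro n
    induction n with
    | zero =>
      intro m hm hmj
      have : m = j := by simpa using hmj
      rw [this]
      exact s1.trans s2
    | succ n ih =>
      intro m hlm hmj
      push_cast at hmj
      have hm : 1 ≤ m := le_trans hl hlm
      have hlj' : m + 1 ≤ j := by omega
      have h3 := ih (m + 1) (by linarith) (by linarith)
      obtain ⟨h5, h6⟩ := hT m hm
      obtain ⟨h7, h8⟩ := hT (m + 1) (by linarith)
      obtain ⟨t, ht⟩ : ∃ t, t = (A + m - 1) / m := ⟨_, rfl⟩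
      obtain ⟨u, hu⟩ : ∃ u, u = (A + (m + 1) - 1) / (m + 1) := ⟨_, rfl⟩
      rw [← ht] at h5 h6
      rw [← hu] at h7 h8 h3
      rw [← ht]
      have ht0 : 1 ≤ t := pos_of_mul hm hApos h5
      have hu0 : 1 ≤ u := pos_of_mul (by linarith) hApos h7
      have hut : u ≤ t := le_of_ceil hm ht0 h5 (by linarith)
      have hst : |b| + (m + 1) ≤ m * (y - (m + 1) * c - 2 * (m + 1) * t) := by
        have hbm' := hbm m hlm
        have e1 : (m + 1) * c ≤ j * c := mul_le_mul_of_nonneg_right hlj' (by linarith)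
        have e2 : 2 * (m + 1) * t ≤ 2 * z + 2 := two_t hA2 hApos hm (by linarith) h6
        have e4 : m * (y - 3 * z - c - 2 + 1) ≤ m * (y - (m + 1) * c - 2 * (m + 1) * t) :=
          mul_le_mul_of_nonneg_left (by linarith) (by linarith)
        nlinarith
      have hh := hx2 (m + 1) (by linarith)
      have hmid : InH m (b + (m + 1) * (-z) - 2 * (m + 1) * (-A))
          (y - (m + 1) * c - 2 * (m + 1) * t) :=
        InH.of_abs hm hh.1 hh.2 hb (by linarith) hst
      have h9 : Q (W (-z) b c y (m + 1) (-A) t) (W (-z) b c y (m + 1) (-A) u) := by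
        have hz : 0 ≤ (m + 1) * (t - u) := mul_nonneg (by linarith) (by linarith)
        have h := move_add (-z) b c y (m + 1) (-A) u 0 (t - u) (by linarith)
          ⟨by linarith, by linarith, by linarith⟩ ⟨by linarith, by linarith, hz⟩ ?_ ?_
        · simpa using h
        · rw [add_zero, add_sub_cancel]
          exact hmid.mono (by linarith)
        · exact hshift _ _ (by linarith) (by linarith) h7
      have h10 : Q (W (-z) b c y (m + 1) (-A) t) (W (-z) b c y m (-A) t) := by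
        exact move_shrink (-z) b c y (m + 1) m (-A) t (by linarith) (by linarith)
          ⟨by linarith, by linarith, by linarith⟩ hmid (hshift _ _ hm (by linarith) h5)
      exact (h3.trans h9.symm).trans h10
  have hfin := key (j - l).toNat l le_rfl (by
    rw [Int.toNat_of_nonneg (by linarith)]; ring)
  exact hfin

/-- Regime (b): `l c < z`. -/
lemma hlb_neg (z b c y l s t : ℤ) (hz : 1 ≤ z) (hc : 1 ≤ c) (hl : 1 ≤ l) (hlc : l * c < z)
    (hA : |b| + 1 ≤ l * (y - 3 * z - c - 2)) (hB : |b| ≤ l * (y - z - l * c - 2 * l))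
    (hC : 4 * l + z ≤ y)
    (h1 : InH l s t) (h2 : InH l (s - -z) (t + c))
    (h3 : InH l (b + l * (-z) - 2 * l * s) (y - l * c - 2 * l * t)) :
    Q (W (-z) b c y l s t) (K1 (-z) b c y (cd z c)) := by
  obtain ⟨h4, h5⟩ := cd_spec z c hc
  have hlj : l ≤ cd z c := by
    have : l * c < cd z c * c := by linarith
    exact (lt_of_mul_lt_mul_right this (by linarith)).le
  have q1 := fan_neg z b c y (cd z c) l hz hc h4 h5 hl hlj hA
  refine Q.trans ?_ q1.symm
  obtain ⟨A, hAdef⟩ : ∃ A, A = (z + 1) / 2 := ⟨_, rfl⟩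
  rw [← hAdef]
  have hA1 : z ≤ 2 * A := by omega
  have hA2 : 2 * A ≤ z + 1 := by omega
  obtain ⟨h6, h7⟩ := ceil_spec A l hl
  obtain ⟨u, hu⟩ : ∃ u, u = (A + l - 1) / l := ⟨_, rfl⟩
  rw [← hu] at h6 h7 ⊢
  have hbl := neg_abs_le b
  have hbu := le_abs_self b
  have hlc0 : 0 ≤ l * c := mul_nonneg (by linarith) (by linarith)
  have hz' : |(-z : ℤ)| = z := by rw [abs_neg, abs_of_nonneg (by linarith)]
  refine box (-z) b c y l s t (-A) u hl (by linarith) (by rw [hz']; exact hC) (by linarith)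
    ⟨h1, h2, h3⟩ ⟨mkInH hl (by linarith) (by linarith), mkInH hl (by linarith) (by linarith), ?_⟩
  have e1 : l * (y - z - l * c - 2 * l) + l ≤ l * (y - l * c - 2 * l * u) := by
    have : l * (y - z - l * c - 2 * l + 1) ≤ l * (y - l * c - 2 * l * u) :=
      mul_le_mul_of_nonneg_left (by linarith) (by linarith)
    linarith
  have e2 : 0 ≤ l * (2 * A - z) := mul_nonneg (by linarith) (by linarith)
  have e3 : 0 ≤ l * (z + 1 - 2 * A) := mul_nonneg (by linarith) (by linarith)
  exact mkInH hl (by linarith) (by linarith)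

/-- The condition for the link in regime (b). -/
def Reg (l z b c y : ℤ) : Prop :=
  z ≤ l * c ∨ (|b| + 1 ≤ l * (y - 3 * z - c - 2) ∧ |b| ≤ l * (y - z - l * c - 2 * l) ∧
    4 * l + z ≤ y)

/-- The wide link. -/
lemma linkH_neg (R S : Matrix (Fin 2) (Fin 2) ℤ) (l z b c y : ℤ) (hl : 1 ≤ l) (hc : 1 ≤ c)
    (hR1 : InH l (R 0 0) (R 1 0)) (hR2 : InH l (R 0 1) (R 1 1))
    (hS1 : l * |S 0 0| ≤ S 0 1) (hS2 : l * |S 1 0| ≤ S 1 1)
    (hP : R * S = !![z, b; c, y]) (hz : 0 ≤ z) (hreg : Reg l z b c y) :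
    ∃ A' : Matrix (Fin 2) (Fin 2) ℤ, Sim A' !![z, b; c, y] ∧ Q (S * R) A' := by
  have e : (!![z, b; c, y] : Matrix (Fin 2) (Fin 2) ℤ) = !![- -z, b; c, y] := by rw [neg_neg]
  rw [e] at hP ⊢
  obtain ⟨s, t, h1, h2, h3, h4⟩ := link_W R S l (-z) b c y hl hR1 hR2 hS1 hS2 hP
  rcases le_or_gt z (l * c) with h | h
  · exact ⟨K1 (-z) b c y l, K1_sim _ _ _ _ _,
      h4.trans (hl_a (-z) b c y l s t (by linarith) (by linarith) (by linarith) (by linarith)
        h1 h3)⟩
  · obtain ⟨g1, g2, g3⟩ : |b| + 1 ≤ l * (y - 3 * z - c - 2) ∧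
        |b| ≤ l * (y - z - l * c - 2 * l) ∧ 4 * l + z ≤ y := by
      rcases hreg with h5 | h5
      · exact absurd h (by linarith)
      · exact h5
    have hz1 : 1 ≤ z := by
      have : 0 ≤ l * c := mul_nonneg (by linarith) (by linarith)
      linarith
    exact ⟨K1 (-z) b c y (cd z c), K1_sim _ _ _ _ _,
      h4.trans (hlb_neg z b c y l s t hz1 hc hl h g1 g2 g3 h1 h2 h3)⟩

/-- The narrow link. -/
lemma linkN_neg (R S : Matrix (Fin 2) (Fin 2) ℤ) (l z b c y : ℤ) (hl : 1 ≤ l) (hb : b ≠ 0)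
    (hR1 : l * |R 0 0| ≤ R 1 0) (hR2 : l * |R 0 1| ≤ R 1 1)
    (hS1 : InH l (S 0 0) (S 0 1)) (hS2 : InH l (S 1 0) (S 1 1))
    (hP : R * S = !![z, b; c, y]) (hz : 0 ≤ z) (hreg : Reg l z c |b| y) :
    ∃ A' : Matrix (Fin 2) (Fin 2) ℤ, Sim A' !![z, b; c, y] ∧ Q (S * R) A' := by
  have hPt : Sᵀ * Rᵀ = !![z, c; b, y] := by
    rw [← Matrix.transpose_mul, hP]
    ext i j; fin_cases i <;> fin_cases j <;> simp
  have fin : ∀ A' : Matrix (Fin 2) (Fin 2) ℤ, Sim A' !![z, c; b, y] → Q (Rᵀ * Sᵀ) A' →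
      ∃ A' : Matrix (Fin 2) (Fin 2) ℤ, Sim A' !![z, b; c, y] ∧ Q (S * R) A' := by
    intro A' h1 h2
    refine ⟨A'ᵀ, ?_, ?_⟩
    · have := h1.transpose
      have e : (!![z, c; b, y] : Matrix (Fin 2) (Fin 2) ℤ)ᵀ = !![z, b; c, y] := by
        ext i j; fin_cases i <;> fin_cases j <;> simp
      rw [e] at this
      exact this
    · have := h2.transpose
      rw [← Matrix.transpose_mul, Matrix.transpose_transpose] at this
      exact this
  rcases lt_or_gt_of_ne hb with hneg | hpos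
  · -- flip the sign of the first vector
    have hab : |b| = -b := abs_of_neg hneg
    rw [hab] at hreg
    obtain ⟨A', h1, h2⟩ := linkH_neg (!![-1, 0; 0, 1] * Sᵀ) (Rᵀ * !![-1, 0; 0, 1]) l z (-c)
      (-b) y hl (by omega)
      (by
        obtain ⟨h1, h2, h3⟩ := hS1
        refine ⟨?_, ?_, ?_⟩ <;> simp [Matrix.mul_apply, Fin.sum_univ_two] <;> linarith)
      (by
        obtain ⟨h1, h2, h3⟩ := hS2
        refine ⟨?_, ?_, ?_⟩ <;> simp [Matrix.mul_apply, Fin.sum_univ_two] <;> linarith)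
      (by simpa [Matrix.mul_apply, Fin.sum_univ_two] using hR1)
      (by simpa [Matrix.mul_apply, Fin.sum_univ_two] using hR2)
      (by
        have : (!![-1, 0; 0, 1] * Sᵀ) * (Rᵀ * !![-1, 0; 0, 1]) =
            (!![-1, 0; 0, 1] : Matrix (Fin 2) (Fin 2) ℤ) * (Sᵀ * Rᵀ) * !![-1, 0; 0, 1] := by
          simp only [Matrix.mul_assoc]
        rw [this, hPt]
        ext i j; fin_cases i <;> fin_cases j <;> simp [Matrix.mul_apply, Fin.sum_univ_two])
      hz (by unfold Reg at hreg ⊢; rw [abs_neg]; exact hreg)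
    refine fin A' ?_ ?_
    · refine h1.trans ⟨!![-1, 0; 0, 1], by simp [Matrix.det_fin_two], ?_⟩
      ext i j; fin_cases i <;> fin_cases j <;> simp [Matrix.mul_apply, Fin.sum_univ_two]
    · have : Rᵀ * !![-1, 0; 0, 1] * (!![-1, 0; 0, 1] * Sᵀ) = Rᵀ * Sᵀ := by
        have e : (!![-1, 0; 0, 1] : Matrix (Fin 2) (Fin 2) ℤ) * !![-1, 0; 0, 1] = 1 := by
          ext i j; fin_cases i <;> fin_cases j <;> simp [Matrix.mul_apply, Fin.sum_univ_two]
        calc Rᵀ * !![-1, 0; 0, 1] * (!![-1, 0; 0, 1] * Sᵀ)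
            = Rᵀ * (!![-1, 0; 0, 1] * !![-1, 0; 0, 1]) * Sᵀ := by
              simp only [Matrix.mul_assoc]
          _ = Rᵀ * Sᵀ := by rw [e, Matrix.mul_one]
      rw [this] at h2
      exact h2
  · have hab : |b| = b := abs_of_pos hpos
    rw [hab] at hreg
    obtain ⟨A', h1, h2⟩ := linkH_neg Sᵀ Rᵀ l z c b y hl (by omega)
      (by simpa using hS1) (by simpa using hS2) (by simpa using hR1) (by simpa using hR2)
      hPt hz hreg
    exact fin A' h1 h2

end Pool.Agent.H48.SE
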