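import Pool.Agent.H48.SE.IneqP
import Pool.Agent.H48.SE.HLQ
import Pool.Graph.R_seed8.Y321.SEP.CoreP

/-!
# The choice of the level and the core links
-/

set_option autoImplicit false

namespace Pool.Agent.H48.SE

open Matrix Pool.Agent.TH441.SSE2 Pool.Agent.Y321.SE2

/-- The choice of the level. -/
lemma level_exists {a d s t e1 e2 φ ψ : ℤ} (ha : 1 ≤ a) (hd : 1 ≤ d) (hs : 1 ≤ s) (ht : 1 ≤ t)
    (he1 : 1 ≤ e1) (he2 : 1 ≤ e2) (hφ : 1 ≤ φ) (hψ : 1 ≤ ψ) (h1 : 2 * (a * e1) ≤ s * φ)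
    (h2 : 2 * (d * e2) ≤ t * ψ) (h3 : 2 * (d * e1) ≤ t * φ) (h4 : 2 * (a * e2) ≤ s * ψ) :
    (∃ l : ℤ, 1 ≤ l ∧ a ≤ l * s ∧ d ≤ l * t ∧ l * e1 ≤ φ ∧ l * e2 ≤ ψ ∧
      (φ < (l + 1) * e1 ∨ ψ < (l + 1) * e2)) ∨
    (∃ l : ℤ, 1 ≤ l ∧ l * a ≤ s ∧ l * d ≤ t ∧ e1 ≤ l * φ ∧ e2 ≤ l * ψ ∧
      (s < (l + 1) * a ∨ t < (l + 1) * d)) := by
  have key : ∀ {u v U V : ℤ}, 1 ≤ u → 1 ≤ v → u ≤ U → v ≤ V →
      ∃ l : ℤ, 1 ≤ l ∧ l * u ≤ U ∧ l * v ≤ V ∧ (U < (l + 1) * u ∨ V < (l + 1) * v) := by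
    intro u v U V hu hv hU hV
    have a1 := Int.ediv_mul_le U (show u ≠ 0 by linarith)
    have a2 := Int.lt_ediv_add_one_mul_self U (show 0 < u by linarith)
    have b1 := Int.ediv_mul_le V (show v ≠ 0 by linarith)
    have b2 := Int.lt_ediv_add_one_mul_self V (show 0 < v by linarith)
    have a3 : 1 ≤ U / u := (Int.le_ediv_iff_mul_le (by linarith)).mpr (by linarith)
    have b3 : 1 ≤ V / v := (Int.le_ediv_iff_mul_le (by linarith)).mpr (by linarith)
    refine ⟨min (U / u) (V / v), le_min a3 b3, ?_, ?_, ?_⟩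
    · exact le_trans (mul_le_mul_of_nonneg_right (min_le_left _ _) (by linarith)) a1
    · exact le_trans (mul_le_mul_of_nonneg_right (min_le_right _ _) (by linarith)) b1
    · rcases min_choice (U / u) (V / v) with h | h
      · left; rw [h]; exact a2
      · right; rw [h]; exact b2
  -- `2 x u ≤ y U` and `U < (l + 1) u` give `x ≤ l y`
  have fin : ∀ {x y u U l : ℤ}, 1 ≤ y → 1 ≤ u → 1 ≤ l → 2 * (x * u) ≤ y * U → U < (l + 1) * u →
      x ≤ l * y := by
    intro x y u U l hy hu hl h5 h6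
    have e1 : y * U ≤ y * ((l + 1) * u) := mul_le_mul_of_nonneg_left h6.le (by linarith)
    have e2 : (l + 1) * (y * u) ≤ (2 * l) * (y * u) :=
      mul_le_mul_of_nonneg_right (by linarith) (by positivity)
    have e3 : u * (2 * x) ≤ u * (2 * (l * y)) := by linarith
    have := le_of_mul (show 0 < u by linarith) e3
    linarith
  by_cases hw : e1 ≤ φ ∧ e2 ≤ ψ
  · left
    obtain ⟨l, l1, l2, l3, l4⟩ := key he1 he2 hw.1 hw.2
    refine ⟨l, l1, ?_, ?_, l2, l3, l4⟩
    · rcases l4 with h | h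
      · exact fin hs he1 l1 h1 h
      · exact fin hs he2 l1 h4 h
    · rcases l4 with h | h
      · exact fin ht he1 l1 h3 h
      · exact fin ht he2 l1 h2 h
  · right
    have has : a ≤ s ∧ d ≤ t := by
      have g : ∀ {x y u U : ℤ}, 1 ≤ x → 1 ≤ y → 1 ≤ u → U < u → 2 * (x * u) ≤ y * U → x ≤ y := by
        intro x y u U hx hy hu hU h
        have e1 : y * U ≤ y * u := mul_le_mul_of_nonneg_left hU.le (by linarith)
        have e2 : u * (2 * x) ≤ u * y := by linarith
        have := le_of_mul (show 0 < u by linarith) e2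
        linarith
      by_cases h5 : e1 ≤ φ
      · have h6 : ψ < e2 := by
          by_contra h7
          push Not at h7
          exact hw ⟨h5, h7⟩
        exact ⟨g ha hs he2 h6 h4, g hd ht he2 h6 h2⟩
      · push Not at h5
        exact ⟨g ha hs he1 h5 h1, g hd ht he1 h5 h3⟩
    obtain ⟨l, l1, l2, l3, l4⟩ := key ha hd has.1 has.2
    refine ⟨l, l1, l2, l3, ?_, ?_, l4⟩
    · rcases l4 with h | h
      · exact fin hφ ha l1 (by linarith) h
      · exact fin hφ hd l1 (by linarith) h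
    · rcases l4 with h | h
      · exact fin hψ ha l1 (by linarith) h
      · exact fin hψ hd l1 (by linarith) h

lemma three {α δ T D : ℤ} (hT : T = α + δ) (hα : T ≤ 4 * α) (hδ : T ≤ 4 * δ)
    (hD : 16 * D ≤ T ^ 2) : 3 * D ≤ α * δ := by
  have h1 : 0 ≤ (4 * α - T) * (4 * δ - T) := mul_nonneg (by linarith) (by linarith)
  have h2 : (4 * α - T) * (4 * δ - T) = 16 * (α * δ) - 3 * T ^ 2 := by rw [hT]; ring
  linarith

/-- The four inequalities, negative determinant. -/
lemma preN {a d s t σ g φ ψ T : ℤ} (ha : 1 ≤ a) (hd : 1 ≤ d) (hs : 1 ≤ s) (ht : 1 ≤ t)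
    (hσ : 1 ≤ σ) (hg : 1 ≤ g) (hφ : 1 ≤ φ) (hψ : 1 ≤ ψ)
    (hT : T = (s * φ - a * σ) + (t * ψ - d * g)) (hα : T ≤ 4 * (s * φ - a * σ))
    (hδ : T ≤ 4 * (t * ψ - d * g)) (hT0 : 0 < T)
    (hD : 16 * ((a * t + d * s) * (φ * g + σ * ψ)) ≤ T ^ 2) :
    2 * (a * σ) ≤ s * φ ∧ 2 * (d * g) ≤ t * ψ ∧ 2 * (d * σ) ≤ t * φ ∧ 2 * (a * g) ≤ s * ψ := by
  have h3 := three hT hα hδ hD
  obtain ⟨α, hαd⟩ : ∃ X, X = s * φ - a * σ := ⟨_, rfl⟩
  obtain ⟨δ, hδd⟩ : ∃ X, X = t * ψ - d * g := ⟨_, rfl⟩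
  rw [← hαd] at h3 hα
  rw [← hδd] at h3 hδ
  have pα : 1 ≤ α := by linarith
  have pδ : 1 ≤ δ := by linarith
  have k1 : 0 ≤ (a * σ) * (d * g) := by positivity
  have k2 : 0 ≤ (a * φ) * (t * g) := by positivity
  have k3 : 0 ≤ (d * ψ) * (s * σ) := by positivity
  have k4 : 0 ≤ (a * σ) * (t * ψ) := by positivity
  have k5 : 0 ≤ (d * g) * (s * φ) := by positivity
  have k6 : 0 ≤ (a * σ) * δ := by positivity
  have k7 : 0 ≤ (d * g) * α := by positivity
  have e1 : s * φ = α + a * σ := by linarith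
  have e2 : t * ψ = δ + d * g := by linarith
  have key : (a * t + d * s) * (φ * g + σ * ψ) = (a * σ) * (t * ψ) + (d * g) * (s * φ) +
      (a * φ) * (t * g) + (d * ψ) * (s * σ) := by ring
  have ey : (s * φ) * (t * ψ) = α * δ + (a * σ) * δ + (d * g) * α + (a * σ) * (d * g) := by
    rw [e1, e2]; ring
  refine ⟨?_, ?_, ?_, ?_⟩
  · have : δ * (a * σ) ≤ δ * α := by rw [key, e2] at h3; linarith
    have := le_of_mul (show 0 < δ by linarith) this
    linarith
  · have : α * (d * g) ≤ α * δ := by rw [key, e1] at h3; linarith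
    have := le_of_mul (show 0 < α by linarith) this
    linarith
  · have psψ : 0 < s * ψ := by positivity
    have : (s * ψ) * (2 * (d * σ)) ≤ (s * ψ) * (t * φ) := by
      have f1 : (s * ψ) * (t * φ) = (s * φ) * (t * ψ) := by ring
      have f2 : (s * ψ) * (2 * (d * σ)) = 2 * ((d * ψ) * (s * σ)) := by ring
      rw [f1, f2, ey]
      rw [key] at h3
      linarith
    exact le_of_mul psψ this
  · have ptφ : 0 < t * φ := by positivity
    have : (t * φ) * (2 * (a * g)) ≤ (t * φ) * (s * ψ) := by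
      have f1 : (t * φ) * (s * ψ) = (s * φ) * (t * ψ) := by ring
      have f2 : (t * φ) * (2 * (a * g)) = 2 * ((a * φ) * (t * g)) := by ring
      rw [f1, f2, ey]
      rw [key] at h3
      linarith
    exact le_of_mul ptφ this

/-- The four inequalities, positive determinant. -/
lemma preP {a d s t e σ φ ψ T : ℤ} (ha : 1 ≤ a) (hd : 1 ≤ d) (hs : 1 ≤ s) (ht : 1 ≤ t)
    (he : 1 ≤ e) (hσ : 1 ≤ σ) (hφ : 1 ≤ φ) (hψ : 1 ≤ ψ)
    (hT : T = (s * φ + a * e) + (t * ψ + d * σ)) (hα : T ≤ 4 * (s * φ + a * e))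
    (hδ : T ≤ 4 * (t * ψ + d * σ))
    (hD : 16 * ((a * t + d * s) * (e * ψ + σ * φ)) ≤ T ^ 2)
    (hβ : 1 ≤ t * φ - d * e) (hγ : 1 ≤ s * ψ - a * σ) :
    2 * (a * e) ≤ s * φ ∧ 2 * (d * σ) ≤ t * ψ ∧ 2 * (d * e) ≤ t * φ ∧ 2 * (a * σ) ≤ s * ψ := by
  have h3 := three hT hα hδ hD
  obtain ⟨α, hαd⟩ : ∃ X, X = s * φ + a * e := ⟨_, rfl⟩
  obtain ⟨δ, hδd⟩ : ∃ X, X = t * ψ + d * σ := ⟨_, rfl⟩
  obtain ⟨β, hβd⟩ : ∃ X, X = t * φ - d * e := ⟨_, rfl⟩
  obtain ⟨γ, hγd⟩ : ∃ X, X = s * ψ - a * σ := ⟨_, rfl⟩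
  have key : (a * t + d * s) * (e * ψ + σ * φ) = (a * e) * δ + (d * σ) * α + (a * σ) * β +
      (d * e) * γ := by rw [hαd, hδd, hβd, hγd]; ring
  rw [key, ← hαd, ← hδd] at h3
  rw [← hβd] at hβ
  rw [← hγd] at hγ
  have pα : 1 ≤ α := by rw [hαd]; have : 0 < s * φ := by positivity
                        have : 0 < a * e := by positivity
                        linarith
  have pδ : 1 ≤ δ := by rw [hδd]; have : 0 < t * ψ := by positivity
                        have : 0 < d * σ := by positivity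
                        linarith
  have k1 : 0 ≤ (a * e) * (d * σ) := by positivity
  have k2 : 0 ≤ (a * σ) * β := by positivity
  have k3 : 0 ≤ (d * e) * γ := by positivity
  have k6 : 0 ≤ (a * e) * δ := by positivity
  have k7 : 0 ≤ (d * σ) * α := by positivity
  have e1 : s * φ = α - a * e := by linarith
  have e2 : t * ψ = δ - d * σ := by linarith
  have ey : (s * φ) * (t * ψ) = α * δ - (a * e) * δ - (d * σ) * α + (a * e) * (d * σ) := by
    rw [e1, e2]; ring
  have k8 : (a * e) * (d * σ) ≤ (a * e) * δ := by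
    refine mul_le_mul_of_nonneg_left ?_ (by positivity)
    have : 0 ≤ t * ψ := by positivity
    linarith
  refine ⟨?_, ?_, ?_, ?_⟩
  · have : δ * (3 * (a * e)) ≤ δ * α := by linarith
    have := le_of_mul (show 0 < δ by linarith) this
    linarith
  · have : α * (3 * (d * σ)) ≤ α * δ := by linarith
    have := le_of_mul (show 0 < α by linarith) this
    linarith
  · have psψ : 0 < s * ψ := by positivity
    have : (s * ψ) * (2 * (d * e)) ≤ (s * ψ) * (t * φ) := by
      have f1 : (s * ψ) * (t * φ) = (s * φ) * (t * ψ) := by ring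
      have f2 : (s * ψ) * (2 * (d * e)) = 2 * ((d * e) * γ) + 2 * ((a * e) * (d * σ)) := by
        rw [hγd]; ring
      rw [f1, f2, ey]
      linarith
    exact le_of_mul psψ this
  · have ptφ : 0 < t * φ := by positivity
    have : (t * φ) * (2 * (a * σ)) ≤ (t * φ) * (s * ψ) := by
      have f1 : (t * φ) * (s * ψ) = (s * φ) * (t * ψ) := by ring
      have f2 : (t * φ) * (2 * (a * σ)) = 2 * ((a * σ) * β) + 2 * ((a * e) * (d * σ)) := by
        rw [hβd]; ring
      rw [f1, f2, ey]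
      linarith
    exact le_of_mul ptφ this

/-- The core link in shifted coordinates, negative determinant. -/
theorem coreN (a d s t σ g φ ψ T : ℤ) (ha : 1 ≤ a) (hd : 1 ≤ d) (hs : 1 ≤ s) (ht : 1 ≤ t)
    (hσ : 1 ≤ σ) (hg : 1 ≤ g) (hφ : 1 ≤ φ) (hψ : 1 ≤ ψ)
    (hT : T = (s * φ - a * σ) + (t * ψ - d * g)) (hα : T ≤ 4 * (s * φ - a * σ))
    (hδ : T ≤ 4 * (t * ψ - d * g)) (hT0 : 0 < T)
    (hD : 16 * ((a * t + d * s) * (φ * g + σ * ψ)) ≤ T ^ 2)
    (hc : 1 ≤ t * g - s * σ) (hw : a * φ - d * ψ ≠ 0) :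
    ∃ A' : Matrix (Fin 2) (Fin 2) ℤ, Sim A' (!![a, -d; s, t] * !![-σ, φ; g, ψ]) ∧
      Q (!![-σ, φ; g, ψ] * !![a, -d; s, t]) A' := by
  obtain ⟨h1, h2, h3, h4⟩ := preN ha hd hs ht hσ hg hφ hψ hT hα hδ hT0 hD
  obtain ⟨x, hx⟩ : ∃ x, x = a * σ + d * g := ⟨_, rfl⟩
  obtain ⟨b, hb⟩ : ∃ x, x = a * φ - d * ψ := ⟨_, rfl⟩
  obtain ⟨c, hcd⟩ : ∃ x, x = t * g - s * σ := ⟨_, rfl⟩
  obtain ⟨y, hy⟩ : ∃ x, x = s * φ + t * ψ := ⟨_, rfl⟩
  have hx0 : 0 ≤ x := by rw [hx]; positivity
  have hyx : y - x = T := by rw [hy, hx, hT]; ring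
  have hRS : (!![a, -d; s, t] * !![-σ, φ; g, ψ] : Matrix (Fin 2) (Fin 2) ℤ) =
      !![-x, b; c, y] := by
    rw [hx, hb, hcd, hy]
    ext i j; fin_cases i <;> fin_cases j <;>
      simp [Matrix.mul_apply, Fin.sum_univ_two] <;> ring
  rcases level_exists ha hd hs ht hσ hg hφ hψ h1 h2 h3 h4 with
    ⟨l, l1, l2, l3, l4, l5, l6⟩ | ⟨l, l1, l2, l3, l4, l5, l6⟩
  · have hreg : x ≤ l * c ∨ |b| + 1 ≤ l * (y - x - c - 7 * x) := by
      rcases le_or_gt x (l * c) with h | h
      · exact Or.inl h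
      · right
        rw [hyx, hb, hcd, hx]
        rw [hcd, hx] at h
        exact ineqN a d s t σ g φ ψ l T ha hd hs ht hσ hg hφ hψ l1 l6 hT hα hδ hT0 hD hc h
    rw [hRS]
    refine link_H !![a, -d; s, t] !![-σ, φ; g, ψ] l x b c y l1 (by rw [hcd]; exact hc)
      ?_ ?_ ?_ ?_ hRS ?_ hreg
    · exact mkInH l1 (by simp; linarith) (by simpa using l2)
    · exact mkInH l1 (by simpa using l3) (by simp; linarith)
    · simp only [Matrix.of_apply, Matrix.cons_val', Matrix.cons_val_zero, Matrix.cons_val_one,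
        Matrix.cons_val_fin_one, abs_neg]
      rw [abs_of_nonneg (by linarith : (0 : ℤ) ≤ σ)]; exact l4
    · simp only [Matrix.of_apply, Matrix.cons_val', Matrix.cons_val_zero, Matrix.cons_val_one,
        Matrix.cons_val_fin_one]
      rw [abs_of_nonneg (by linarith : (0 : ℤ) ≤ g)]; exact l5
    · have : 0 ≤ l * c := mul_nonneg (by linarith) (by rw [hcd]; linarith)
      linarith
  · have hreg : x ≤ l * |b| ∨ |c| + 1 ≤ l * (y - x - |b| - 7 * x) := by
      rcases le_or_gt x (l * |b|) with h | h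
      · exact Or.inl h
      · right
        rw [hyx]
        rcases lt_or_gt_of_ne hw with hneg | hpos
        · have hb' : |b| = t * φ * 0 + (ψ * d - φ * a) := by
            rw [hb, abs_of_neg hneg]; ring
          have hc' : |c| = |σ * s - g * t| := by
            rw [hcd, ← abs_neg]; congr 1; ring
          have hcc : σ * s - g * t = -(t * g - s * σ) := by ring
          have hbb : |b| = ψ * d - φ * a := by rw [hb']; ring
          rw [hbb] at h ⊢
          rw [hc']
          have := ineqN σ g φ ψ a d s t l T hσ hg hφ hψ ha hd hs ht l1 l6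
            (by rw [hT]; ring) (by linarith) (by linarith) hT0
            (by
              have e : (σ * ψ + g * φ) * (s * d + a * t) =
                (a * t + d * s) * (φ * g + σ * ψ) := by ring
              rw [e]; exact hD) (by linarith) (by rw [hx] at h; linarith)
          have e1 : σ * a + g * d = x := by rw [hx]; ring
          rw [e1] at this
          exact this
        · have hbb : |b| = φ * a - ψ * d := by
            rw [hb, abs_of_pos hpos]; ring
          have hc' : |c| = |g * t - σ * s| := by rw [hcd]; congr 1; ring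
          rw [hbb] at h ⊢
          rw [hc']
          have := ineqN g σ ψ φ d a t s l T hg hσ hψ hφ hd ha ht hs l1 (Or.symm l6)
            (by rw [hT]; ring) (by linarith) (by linarith) hT0
            (by
              have e : (g * φ + σ * ψ) * (t * a + d * s) =
                (a * t + d * s) * (φ * g + σ * ψ) := by ring
              rw [e]; exact hD) (by linarith) (by rw [hx] at h; linarith)
          have e1 : g * d + σ * a = x := by rw [hx]; ring
          rw [e1] at this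
          exact this
    rw [hRS]
    refine link_N !![a, -d; s, t] !![-σ, φ; g, ψ] l x b c y l1 (by rw [hb]; exact hw)
      ?_ ?_ ?_ ?_ hRS ?_ hreg
    · simp only [Matrix.of_apply, Matrix.cons_val', Matrix.cons_val_zero, Matrix.cons_val_one,
        Matrix.cons_val_fin_one]
      rw [abs_of_nonneg (by linarith : (0 : ℤ) ≤ a)]; exact l2
    · simp only [Matrix.of_apply, Matrix.cons_val', Matrix.cons_val_zero, Matrix.cons_val_one,
        Matrix.cons_val_fin_one, abs_neg]
      rw [abs_of_nonneg (by linarith : (0 : ℤ) ≤ d)]; exact l3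
    · exact mkInH l1 (by simp; linarith) (by simp; linarith)
    · exact mkInH l1 (by simp; linarith) (by simpa using l5)
    · have : 0 ≤ l * |b| := mul_nonneg (by linarith) (abs_nonneg b)
      linarith

/-- The core link in shifted coordinates, positive determinant. -/
theorem coreP (a d s t e σ φ ψ T : ℤ) (ha : 1 ≤ a) (hd : 1 ≤ d) (hs : 1 ≤ s) (ht : 1 ≤ t)
    (he : 1 ≤ e) (hσ : 1 ≤ σ) (hφ : 1 ≤ φ) (hψ : 1 ≤ ψ)
    (hT : T = (s * φ + a * e) + (t * ψ + d * σ)) (hα : T ≤ 4 * (s * φ + a * e))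
    (hδ : T ≤ 4 * (t * ψ + d * σ)) (hT0 : 0 < T)
    (hD : 16 * ((a * t + d * s) * (e * ψ + σ * φ)) ≤ T ^ 2)
    (hβ : 1 ≤ t * φ - d * e) (hγ : 1 ≤ s * ψ - a * σ)
    (hc : 1 ≤ s * e - t * σ) (hw : a * φ - d * ψ ≠ 0) :
    ∃ A' : Matrix (Fin 2) (Fin 2) ℤ, Sim A' (!![a, -d; s, t] * !![e, φ; -σ, ψ]) ∧
      Q (!![e, φ; -σ, ψ] * !![a, -d; s, t]) A' := by
  obtain ⟨h1, h2, h3, h4⟩ := preP ha hd hs ht he hσ hφ hψ hT hα hδ hD hβ hγ
  obtain ⟨z, hz⟩ : ∃ x, x = a * e + d * σ := ⟨_, rfl⟩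
  obtain ⟨b, hb⟩ : ∃ x, x = a * φ - d * ψ := ⟨_, rfl⟩
  obtain ⟨c, hcd⟩ : ∃ x, x = s * e - t * σ := ⟨_, rfl⟩
  obtain ⟨y, hy⟩ : ∃ x, x = s * φ + t * ψ := ⟨_, rfl⟩
  have hz0 : 0 ≤ z := by rw [hz]; positivity
  have hRS : (!![a, -d; s, t] * !![e, φ; -σ, ψ] : Matrix (Fin 2) (Fin 2) ℤ) =
      !![z, b; c, y] := by
    rw [hz, hb, hcd, hy]
    ext i j; fin_cases i <;> fin_cases j <;>
      simp [Matrix.mul_apply, Fin.sum_univ_two] <;> ring
  rcases level_exists ha hd hs ht he hσ hφ hψ h1 h2 h3 h4 with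
    ⟨l, l1, l2, l3, l4, l5, l6⟩ | ⟨l, l1, l2, l3, l4, l5, l6⟩
  · have hreg : Reg l z b c y := by
      rcases le_or_gt z (l * c) with h | h
      · exact Or.inl h
      · right
        rw [hb, hcd, hz, hy]
        rw [hcd, hz] at h
        exact ineqP a d s t e σ φ ψ l T ha hd hs ht he hσ hφ hψ l1 l6 hT hα hδ hT0 hD hβ hγ hc h
    rw [hRS]
    refine linkH_neg !![a, -d; s, t] !![e, φ; -σ, ψ] l z b c y l1 (by rw [hcd]; exact hc)
      ?_ ?_ ?_ ?_ hRS hz0 hreg
    · exact mkInH l1 (by simp; linarith) (by simpa using l2)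
    · exact mkInH l1 (by simpa using l3) (by simp; linarith)
    · simp only [Matrix.of_apply, Matrix.cons_val', Matrix.cons_val_zero, Matrix.cons_val_one,
        Matrix.cons_val_fin_one]
      rw [abs_of_nonneg (by linarith : (0 : ℤ) ≤ e)]; exact l4
    · simp only [Matrix.of_apply, Matrix.cons_val', Matrix.cons_val_zero, Matrix.cons_val_one,
        Matrix.cons_val_fin_one, abs_neg]
      rw [abs_of_nonneg (by linarith : (0 : ℤ) ≤ σ)]; exact l5
  · have hreg : Reg l z c |b| y := by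
      rcases le_or_gt z (l * |b|) with h | h
      · exact Or.inl h
      · right
        rcases lt_or_gt_of_ne hw with hneg | hpos
        · have hbb : |b| = ψ * d - φ * a := by
            rw [hb, abs_of_neg hneg]; ring
          have hc' : |c| = |σ * t - e * s| := by
            rw [hcd, ← abs_neg]; congr 1; ring
          rw [hbb] at h ⊢
          rw [hc']
          have := ineqP σ e ψ φ d a t s l T hσ he hψ hφ hd ha ht hs l1 (Or.symm l6)
            (by rw [hT]; ring) (by linarith) (by linarith) hT0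
            (by
              have e' : (σ * φ + e * ψ) * (d * s + a * t) =
                (a * t + d * s) * (e * ψ + σ * φ) := by ring
              rw [e']; exact hD) (by linarith) (by linarith) (by linarith)
            (by rw [hz] at h; linarith)
          have e1 : σ * d + e * a = z := by rw [hz]; ring
          have e2 : ψ * t + φ * s = y := by rw [hy]; ring
          rw [e1, e2] at this
          exact this
        · have hbb : |b| = φ * a - ψ * d := by
            rw [hb, abs_of_pos hpos]; ring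
          have hc' : |c| = |e * s - σ * t| := by rw [hcd]; congr 1; ring
          rw [hbb] at h ⊢
          rw [hc']
          have := ineqP e σ φ ψ a d s t l T he hσ hφ hψ ha hd hs ht l1 l6
            (by rw [hT]; ring) (by linarith) (by linarith) hT0
            (by
              have e' : (e * ψ + σ * φ) * (a * t + d * s) =
                (a * t + d * s) * (e * ψ + σ * φ) := by ring
              rw [e']; exact hD) (by linarith) (by linarith) (by linarith)
            (by rw [hz] at h; linarith)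
          have e1 : e * a + σ * d = z := by rw [hz]; ring
          have e2 : φ * s + ψ * t = y := by rw [hy]; ring
          rw [e1, e2] at this
          exact this
    rw [hRS]
    refine linkN_neg !![a, -d; s, t] !![e, φ; -σ, ψ] l z b c y l1 (by rw [hb]; exact hw)
      ?_ ?_ ?_ ?_ hRS hz0 hreg
    · simp only [Matrix.of_apply, Matrix.cons_val', Matrix.cons_val_zero, Matrix.cons_val_one,
        Matrix.cons_val_fin_one]
      rw [abs_of_nonneg (by linarith : (0 : ℤ) ≤ a)]; exact l2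
    · simp only [Matrix.of_apply, Matrix.cons_val', Matrix.cons_val_zero, Matrix.cons_val_one,
        Matrix.cons_val_fin_one, abs_neg]
      rw [abs_of_nonneg (by linarith : (0 : ℤ) ≤ d)]; exact l3
    · exact mkInH l1 (by simp; linarith) (by simpa using l4)
    · exact mkInH l1 (by simp; linarith) (by simp; linarith)

end Pool.Agent.H48.SE
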