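import Mathlib

/-!
# The inequalities
-/

set_option autoImplicit false

namespace Pool.Agent.H48.SE

lemma le_of_mul {a b k : ℤ} (hk : 0 < k) (h : k * a ≤ k * b) : a ≤ b :=
  le_of_mul_le_mul_left h hk

/-- `T > 4 x` from `4 x T < T ^ 2`. -/
lemma four_lt {x T : ℤ} (hT : 0 < T) (h : 4 * x * T < T ^ 2) : 4 * x < T := by
  by_contra hneg
  push Not at hneg
  have := mul_le_mul_of_nonneg_right hneg hT.le
  nlinarith

lemma sixteen {x T : ℤ} (hT : 0 < T) (hx : 0 < x) (h : 16 * (x * (T + x)) ≤ T ^ 2) :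
    16 * x ≤ T := by
  by_contra hneg
  push Not at hneg
  have := mul_lt_mul_of_pos_right hneg hT
  nlinarith [mul_pos hx hx]

/-- From a quadratic inequality with roots around `14`. -/
lemma fourteen {x T : ℤ} (hx : 0 < x) (h4 : 4 * x < T) (h : 16 * (x * (T - x)) ≤ T ^ 2) :
    14 * x ≤ T := by
  by_contra hneg
  push Not at hneg
  have : 0 < (T - 4 * x) * (14 * x - T) := mul_pos (by linarith) (by linarith)
  nlinarith [mul_pos hx hx, mul_pos hx (show 0 < T - 4 * x by linarith)]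

lemma twelve {x T : ℤ} (h4 : 4 * x < T) (h : 0 ≤ T ^ 2 - 16 * (x * T) + 48 * x ^ 2) :
    12 * x ≤ T := by
  by_contra hneg
  push Not at hneg
  have : 0 < (T - 4 * x) * (12 * x - T) := mul_pos (by linarith) (by linarith)
  nlinarith

lemma twelve' {x T : ℤ} (hx : 0 < x) (hT : 0 < T) (h : 0 ≤ T ^ 2 - 8 * (x * T) - 48 * x ^ 2) :
    12 * x ≤ T := by
  by_contra hneg
  push Not at hneg
  have : 0 < (T + 4 * x) * (12 * x - T) := mul_pos (by linarith) (by linarith)
  nlinarith

lemma nine {x T : ℤ} (hx : 0 < x) (hT : 0 < T) (h : 0 ≤ T ^ 2 - 8 * (x * T) - 16 * x ^ 2) :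
    9 * x ≤ T := by
  by_contra hneg
  push Not at hneg
  have h1 : T * T ≤ T * (9 * x) := mul_le_mul_of_nonneg_left hneg.le hT.le
  have h2 : T * x < 9 * x * x := mul_lt_mul_of_pos_right hneg hx
  nlinarith

/-- The final step, `|b| ≤ (l + 1) x` up to a small constant. -/
lemma finN1 {x c l T B : ℤ} (hl : 1 ≤ l) (hx : 1 ≤ x) (hlc : l * c < x) (h : 12 * x ≤ T)
    (hB : B + 2 ≤ (l + 1) * x) : B + 1 ≤ l * (T - c - 7 * x) := by
  have h1 : l * (12 * x) ≤ l * T := mul_le_mul_of_nonneg_left h (by linarith)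
  have h2 : 1 * x ≤ l * x := mul_le_mul_of_nonneg_right hl (by linarith)
  linarith

/-- The inequality for negative determinant. -/
lemma ineqN (a d s t σ g φ ψ l T : ℤ) (ha : 1 ≤ a) (hd : 1 ≤ d) (hs : 1 ≤ s) (ht : 1 ≤ t)
    (hσ : 1 ≤ σ) (hg : 1 ≤ g) (hφ : 1 ≤ φ) (hψ : 1 ≤ ψ) (hl : 1 ≤ l)
    (hbind : φ < (l + 1) * σ ∨ ψ < (l + 1) * g)
    (hT : T = (s * φ - a * σ) + (t * ψ - d * g)) (hα : T ≤ 4 * (s * φ - a * σ))
    (hδ : T ≤ 4 * (t * ψ - d * g)) (hT0 : 0 < T)
    (hD : 16 * ((a * t + d * s) * (φ * g + σ * ψ)) ≤ T ^ 2)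
    (hc : 1 ≤ t * g - s * σ) (hreg : l * (t * g - s * σ) < a * σ + d * g) :
    |a * φ - d * ψ| + 1 ≤ l * (T - (t * g - s * σ) - 7 * (a * σ + d * g)) := by
  obtain ⟨X1, hX1⟩ : ∃ X, X = a * σ := ⟨_, rfl⟩
  obtain ⟨X2, hX2⟩ : ∃ X, X = d * g := ⟨_, rfl⟩
  obtain ⟨Y1, hY1⟩ : ∃ X, X = s * φ := ⟨_, rfl⟩
  obtain ⟨Y2, hY2⟩ : ∃ X, X = t * ψ := ⟨_, rfl⟩
  obtain ⟨c, hcd⟩ : ∃ X, X = t * g - s * σ := ⟨_, rfl⟩
  obtain ⟨x, hx⟩ : ∃ X, X = X1 + X2 := ⟨_, rfl⟩
  obtain ⟨D, hDd⟩ : ∃ X, X = (a * t + d * s) * (φ * g + σ * ψ) := ⟨_, rfl⟩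
  have pX1 : 1 ≤ X1 := by rw [hX1]; nlinarith
  have pX2 : 1 ≤ X2 := by rw [hX2]; nlinarith
  have pY1 : 1 ≤ Y1 := by rw [hY1]; nlinarith
  have pY2 : 1 ≤ Y2 := by rw [hY2]; nlinarith
  have paφ : 1 ≤ a * φ := by nlinarith
  have pdψ : 1 ≤ d * ψ := by nlinarith
  have key : D = x * (T + x) + (a * φ - d * ψ) * c := by
    rw [hDd, hx, hT, hX1, hX2, hcd]; ring
  have keyU : D = X1 * Y2 + X2 * Y1 + (a * φ) * (t * g) + (d * ψ) * (s * σ) := by
    rw [hDd, hX1, hX2, hY1, hY2]; ring
  have hTy : T + x = Y1 + Y2 := by rw [hT, hx, hX1, hX2, hY1, hY2]; ring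
  rw [← hX1, ← hY1] at hα
  rw [← hX2, ← hY2] at hδ
  rw [← hDd] at hD
  rw [← hcd] at hc hreg ⊢
  rw [← hX1, ← hX2, ← hx] at hreg ⊢
  have px : 2 ≤ x := by linarith
  -- `4 x < T`
  have h4 : 4 * x < T := by
    apply four_lt hT0
    have e1 : X1 * T ≤ X1 * (4 * (Y2 - X2)) := mul_le_mul_of_nonneg_left hδ (by linarith)
    have e2 : X2 * T ≤ X2 * (4 * (Y1 - X1)) := mul_le_mul_of_nonneg_left hα (by linarith)
    have e3 : 1 * 1 ≤ X1 * X2 := mul_le_mul pX1 pX2 (by norm_num) (by linarith)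
    have e4 : 0 ≤ (a * φ) * (t * g) := by positivity
    have e5 : 0 ≤ (d * ψ) * (s * σ) := by positivity
    rw [hx]
    nlinarith
  have hlD : ∀ B : ℤ, 0 ≤ B → a * φ - d * ψ = -B →
      16 * (l * (x * (T + x)) - B * x) ≤ l * T ^ 2 := by
    intro B hB hb
    have e1 : l * D = l * (x * (T + x)) - B * (l * c) := by rw [key, hb]; ring
    have e2 : B * (l * c) ≤ B * x := mul_le_mul_of_nonneg_left hreg.le hB
    have e3 : l * (16 * D) ≤ l * T ^ 2 := mul_le_mul_of_nonneg_left hD (by linarith)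
    linarith
  rcases le_or_gt 0 (a * φ - d * ψ) with hb | hb
  · -- `b ≥ 0`
    rw [abs_of_nonneg hb]
    have h16 : 16 * x ≤ T := by
      apply sixteen hT0 (by linarith)
      have : 0 ≤ (a * φ - d * ψ) * c := mul_nonneg hb (by linarith)
      linarith
    rcases hbind with h | h
    · apply finN1 hl (by linarith) hreg (by linarith)
      have e1 : a * (φ + 1) ≤ a * ((l + 1) * σ) := mul_le_mul_of_nonneg_left h (by linarith)
      have e2 : (l + 1) * X1 + (l + 1) * X2 = (l + 1) * x := by rw [hx]; ring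
      have e3 : a * ((l + 1) * σ) = (l + 1) * X1 := by rw [hX1]; ring
      have e4 : 0 ≤ (l + 1) * X2 := mul_nonneg (by linarith) (by linarith)
      linarith
    · -- `a φ` is bounded through `D`
      obtain ⟨b, hbd⟩ : ∃ b, b = a * φ - d * ψ := ⟨_, rfl⟩
      rw [← hbd] at hb ⊢
      have haφ : a * φ = b + d * ψ := by linarith
      have e1 : (l + 1) * D ≥ (l + 1) * (X1 * Y2 + X2 * Y1) + b * Y2 := by
        have f1 : b * (t * (ψ + 1)) ≤ b * (t * ((l + 1) * g)) :=
          mul_le_mul_of_nonneg_left (mul_le_mul_of_nonneg_left h (by linarith)) hb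
        have f2 : D = X1 * Y2 + X2 * Y1 + b * (t * g) + (d * ψ) * (t * g) +
            (d * ψ) * (s * σ) := by rw [keyU, haφ]; ring
        have f3 : 0 ≤ (l + 1) * ((d * ψ) * (t * g)) := by positivity
        have f4 : 0 ≤ (l + 1) * ((d * ψ) * (s * σ)) := by positivity
        have f5 : 0 ≤ b * t := mul_nonneg hb (by linarith)
        rw [f2, hY2]
        nlinarith
      have e2 : 4 * b ≤ (l + 1) * T := by
        by_contra hneg
        push Not at hneg
        have f1 : (l + 1) * T * Y2 < 4 * b * Y2 := mul_lt_mul_of_pos_right hneg (by linarith)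
        have f2 : 0 ≤ (l + 1) * (X1 * Y2 + X2 * Y1) := by positivity
        have f3 : T * T ≤ T * (4 * Y2) := mul_le_mul_of_nonneg_left (by linarith) hT0.le
        have f4 : (l + 1) * (16 * D) ≤ (l + 1) * (4 * T * Y2) := by
          refine mul_le_mul_of_nonneg_left ?_ (by linarith)
          nlinarith
        nlinarith
      have e3 : l * (16 * x) ≤ l * T := mul_le_mul_of_nonneg_left h16 (by linarith)
      have e4 : (l + 1) * T ≤ (2 * l) * T := mul_le_mul_of_nonneg_right (by linarith) hT0.le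
      have e5 : 1 * x ≤ l * x := mul_le_mul_of_nonneg_right hl (by linarith)
      nlinarith
  · rw [abs_of_neg hb]
    obtain ⟨B, hBd⟩ : ∃ b, b = -(a * φ - d * ψ) := ⟨_, rfl⟩
    rw [← hBd]
    have hB0 : 1 ≤ B := by rw [hBd]; linarith
    have hBd' : a * φ - d * ψ = -B := by linarith
    have h16 := hlD B (by linarith) hBd'
    rcases hbind with h | h
    · -- `d ψ` is bounded through `D`
      have hdψ : d * ψ = B + a * φ := by linarith
      have e1 : (l + 1) * D ≥ (l + 1) * (X1 * Y2 + X2 * Y1 + 2 * (X1 * Y1)) + B * Y1 := by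
        have f1 : B * (s * (φ + 1)) ≤ B * (s * ((l + 1) * σ)) :=
          mul_le_mul_of_nonneg_left (mul_le_mul_of_nonneg_left h (by linarith)) (by linarith)
        have f2 : D = X1 * Y2 + X2 * Y1 + 2 * (X1 * Y1) + (a * φ) * c + B * (s * σ) := by
          rw [keyU, hdψ, hcd, hX1, hY1]; ring
        have f3 : 0 ≤ (l + 1) * ((a * φ) * c) := by positivity
        have f5 : 0 ≤ B * s := mul_nonneg (by linarith) (by linarith)
        have f6 : B * Y1 = B * (s * φ) := by rw [hY1]
        rw [f2, f6]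
        nlinarith
      have e2 : 4 * B ≤ (l + 1) * (T - 4 * x) := by
        by_contra hneg
        push Not at hneg
        have f1 : (l + 1) * (T - 4 * x) * Y1 < 4 * B * Y1 :=
          mul_lt_mul_of_pos_right hneg (by linarith)
        have f3 : T * T ≤ T * (4 * Y1) := mul_le_mul_of_nonneg_left (by linarith) hT0.le
        have f4 : (l + 1) * (16 * D) ≤ (l + 1) * (4 * T * Y1) := by
          refine mul_le_mul_of_nonneg_left ?_ (by linarith)
          nlinarith
        have f5 : 0 ≤ (l + 1) * (X1 * Y2 + X1 * Y1) := by positivity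
        have f6 : (l + 1) * (x * Y1) = (l + 1) * (X1 * Y1 + X2 * Y1) := by rw [hx]; ring
        nlinarith
      have h12 : 12 * x ≤ T := by
        apply twelve' (by linarith) hT0
        have f1 : B * x * 4 ≤ (l + 1) * (T - 4 * x) * x := by
          have := mul_le_mul_of_nonneg_right e2 (show 0 ≤ x by linarith)
          linarith
        have f2 : (l + 1) * (T - 4 * x) * x ≤ (2 * l) * (T - 4 * x) * x := by
          refine mul_le_mul_of_nonneg_right ?_ (by linarith)
          exact mul_le_mul_of_nonneg_right (by linarith) (by linarith)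
        have f3 : l * (8 * (x * T) + 48 * x ^ 2) ≤ l * T ^ 2 := by nlinarith
        have := le_of_mul (show 0 < l by linarith) f3
        linarith
      have e4 : (l + 1) * (T - 4 * x) ≤ (2 * l) * (T - 4 * x) :=
        mul_le_mul_of_nonneg_right (by linarith) (by linarith)
      have e5 : (l - 1) * (12 * x) ≤ (l - 1) * T :=
        mul_le_mul_of_nonneg_left h12 (by linarith)
      nlinarith
    · -- `B < (l + 1) X2`
      have hBx : B + 2 ≤ (l + 1) * x := by
        have e1 : d * (ψ + 1) ≤ d * ((l + 1) * g) := mul_le_mul_of_nonneg_left h (by linarith)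
        have e2 : (l + 1) * X1 + (l + 1) * X2 = (l + 1) * x := by rw [hx]; ring
        have e3 : d * ((l + 1) * g) = (l + 1) * X2 := by rw [hX2]; ring
        have e4 : 0 ≤ (l + 1) * X1 := mul_nonneg (by linarith) (by linarith)
        linarith
      have h14 : 14 * x ≤ T := by
        apply fourteen (by linarith) h4
        have f1 : B * x ≤ (2 * l * x) * x := by
          refine mul_le_mul_of_nonneg_right ?_ (by linarith)
          have : (l + 1) * x ≤ (2 * l) * x := mul_le_mul_of_nonneg_right (by linarith) (by linarith)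
          linarith
        have f3 : l * (16 * (x * (T - x))) ≤ l * T ^ 2 := by nlinarith
        exact le_of_mul (show 0 < l by linarith) f3
      exact finN1 hl (by linarith) hreg (by linarith) hBx

end Pool.Agent.H48.SE
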