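import Pool.Agent.H48.SE.Ineq

/-!
# The inequalities for positive determinant
-/

set_option autoImplicit false

namespace Pool.Agent.H48.SE

/-- The three final estimates. -/
lemma finP {l z c T B : ℤ} (hl : 1 ≤ l) (hz : 2 ≤ z) (hc : 1 ≤ c) (hlc : l * c < z)
    (h : (B + 2 ≤ (l + 1) * z ∧ 12 * z ≤ T) ∨ (4 * B ≤ (l + 1) * (T - 4 * z) ∧ 9 * z ≤ T) ∨
      (4 * B ≤ (l + 1) * T ∧ 14 * z ≤ T)) :
    B + 1 ≤ l * ((T - z) - 3 * z - c - 2) ∧ B ≤ l * ((T - z) - z - l * c - 2 * l) ∧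
      4 * l + z ≤ T - z := by
  have hlz : l ≤ z - 1 := by
    have : l * 1 ≤ l * c := mul_le_mul_of_nonneg_left hc (by linarith)
    linarith
  have g1 : 1 * z ≤ l * z := mul_le_mul_of_nonneg_right hl (by linarith)
  have g2 : l * 2 ≤ l * z := mul_le_mul_of_nonneg_left hz (by linarith)
  have g3 : l * (l * c) ≤ l * (z - 1) := mul_le_mul_of_nonneg_left (by linarith) (by linarith)
  have g4 : l * l ≤ l * (z - 1) := mul_le_mul_of_nonneg_left hlz (by linarith)
  have g5 : (l + 1) * T ≤ (2 * l) * T := by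
    refine mul_le_mul_of_nonneg_right (by linarith) ?_
    rcases h with ⟨_, h⟩ | ⟨_, h⟩ | ⟨_, h⟩ <;> linarith
  rcases h with ⟨h1, h2⟩ | ⟨h1, h2⟩ | ⟨h1, h2⟩
  · have e1 : l * (12 * z) ≤ l * T := mul_le_mul_of_nonneg_left h2 (by linarith)
    refine ⟨by linarith, by linarith, by linarith⟩
  · have e1 : l * (9 * z) ≤ l * T := mul_le_mul_of_nonneg_left h2 (by linarith)
    have e2 : 1 * (T - 4 * z) ≤ l * (T - 4 * z) :=
      mul_le_mul_of_nonneg_right hl (by linarith)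
    have e3 : (l - 1) * (9 * z) ≤ (l - 1) * T := mul_le_mul_of_nonneg_left h2 (by linarith)
    refine ⟨by linarith, by linarith, by linarith⟩
  · have e1 : l * (14 * z) ≤ l * T := mul_le_mul_of_nonneg_left h2 (by linarith)
    refine ⟨by linarith, by linarith, by linarith⟩

/-- The inequality for positive determinant. -/
lemma ineqP (a d s t e σ φ ψ l T : ℤ) (ha : 1 ≤ a) (hd : 1 ≤ d) (hs : 1 ≤ s) (ht : 1 ≤ t)
    (he : 1 ≤ e) (hσ : 1 ≤ σ) (hφ : 1 ≤ φ) (hψ : 1 ≤ ψ) (hl : 1 ≤ l)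
    (hbind : φ < (l + 1) * e ∨ ψ < (l + 1) * σ)
    (hT : T = (s * φ + a * e) + (t * ψ + d * σ)) (hα : T ≤ 4 * (s * φ + a * e))
    (hδ : T ≤ 4 * (t * ψ + d * σ)) (hT0 : 0 < T)
    (hD : 16 * ((a * t + d * s) * (e * ψ + σ * φ)) ≤ T ^ 2)
    (hβ : 1 ≤ t * φ - d * e) (hγ : 1 ≤ s * ψ - a * σ)
    (hc : 1 ≤ s * e - t * σ) (hreg : l * (s * e - t * σ) < a * e + d * σ) :
    |a * φ - d * ψ| + 1 ≤
        l * ((s * φ + t * ψ) - 3 * (a * e + d * σ) - (s * e - t * σ) - 2) ∧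
      |a * φ - d * ψ| ≤
        l * ((s * φ + t * ψ) - (a * e + d * σ) - l * (s * e - t * σ) - 2 * l) ∧
      4 * l + (a * e + d * σ) ≤ s * φ + t * ψ := by
  obtain ⟨Z1, hZ1⟩ : ∃ X, X = a * e := ⟨_, rfl⟩
  obtain ⟨Z2, hZ2⟩ : ∃ X, X = d * σ := ⟨_, rfl⟩
  obtain ⟨Y1, hY1⟩ : ∃ X, X = s * φ := ⟨_, rfl⟩
  obtain ⟨Y2, hY2⟩ : ∃ X, X = t * ψ := ⟨_, rfl⟩
  obtain ⟨c, hcd⟩ : ∃ X, X = s * e - t * σ := ⟨_, rfl⟩
  obtain ⟨z, hz⟩ : ∃ X, X = Z1 + Z2 := ⟨_, rfl⟩
  obtain ⟨D, hDd⟩ : ∃ X, X = (a * t + d * s) * (e * ψ + σ * φ) := ⟨_, rfl⟩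
  have pZ1 : 1 ≤ Z1 := by rw [hZ1]; nlinarith
  have pZ2 : 1 ≤ Z2 := by rw [hZ2]; nlinarith
  have pY1 : 1 ≤ Y1 := by rw [hY1]; nlinarith
  have pY2 : 1 ≤ Y2 := by rw [hY2]; nlinarith
  have paφ : 1 ≤ a * φ := by nlinarith
  have pdψ : 1 ≤ d * ψ := by nlinarith
  have ptσ : 1 ≤ t * σ := by nlinarith
  have pse : 1 ≤ s * e := by nlinarith
  have key : D = z * (T - z) - (a * φ - d * ψ) * c := by
    rw [hDd, hz, hT, hZ1, hZ2, hcd]; ring
  have keyU : D = Z1 * Y2 + Z2 * Y1 + (a * φ) * (t * σ) + (d * ψ) * (s * e) := by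
    rw [hDd, hZ1, hZ2, hY1, hY2]; ring
  have keyB : D = Z1 * (Y2 + Z2) + Z2 * (Y1 + Z1) + (a * σ) * (t * φ - d * e) +
      (d * e) * (s * ψ - a * σ) := by
    rw [hDd, hZ1, hZ2, hY1, hY2]; ring
  have hTy : T = Y1 + Y2 + z := by rw [hT, hz, hZ1, hZ2, hY1, hY2]; ring
  rw [← hZ1, ← hY1] at hα
  rw [← hZ2, ← hY2] at hδ
  rw [← hDd] at hD
  rw [← hcd] at hc hreg ⊢
  rw [← hZ1, ← hZ2, ← hz] at hreg ⊢
  rw [← hY1, ← hY2]
  have hyT : Y1 + Y2 = T - z := by linarith
  rw [hyT]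
  have pz : 2 ≤ z := by linarith
  have h4 : 4 * z < T := by
    apply four_lt hT0
    have e1 : Z1 * T ≤ Z1 * (4 * (Y2 + Z2)) := mul_le_mul_of_nonneg_left hδ (by linarith)
    have e2 : Z2 * T ≤ Z2 * (4 * (Y1 + Z1)) := mul_le_mul_of_nonneg_left hα (by linarith)
    have e4 : 0 ≤ (a * σ) * (t * φ - d * e) := mul_nonneg (by positivity) (by linarith)
    have e5 : 1 ≤ (d * e) * (s * ψ - a * σ) := by
      have : 1 ≤ d * e := by nlinarith
      nlinarith
    have e6 : z * T = Z1 * T + Z2 * T := by rw [hz]; ring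
    nlinarith
  apply finP hl pz hc hreg
  rcases le_or_gt 0 (a * φ - d * ψ) with hb | hb
  · -- `b ≥ 0`
    rw [abs_of_nonneg hb]
    obtain ⟨b, hbd⟩ : ∃ b, b = a * φ - d * ψ := ⟨_, rfl⟩
    rw [← hbd] at hb key ⊢
    have hlD : 16 * (l * (z * (T - z)) - b * z) ≤ l * T ^ 2 := by
      have e1 : l * D = l * (z * (T - z)) - b * (l * c) := by rw [key]; ring
      have e2 : b * (l * c) ≤ b * z := mul_le_mul_of_nonneg_left hreg.le hb
      have e3 : l * (16 * D) ≤ l * T ^ 2 := mul_le_mul_of_nonneg_left hD (by linarith)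
      linarith
    rcases hbind with h | h
    · left
      have hbx : b + 2 ≤ (l + 1) * z := by
        have e1 : a * (φ + 1) ≤ a * ((l + 1) * e) := mul_le_mul_of_nonneg_left h (by linarith)
        have e2 : (l + 1) * Z1 + (l + 1) * Z2 = (l + 1) * z := by rw [hz]; ring
        have e3 : a * ((l + 1) * e) = (l + 1) * Z1 := by rw [hZ1]; ring
        have e4 : 0 ≤ (l + 1) * Z2 := mul_nonneg (by linarith) (by linarith)
        linarith
      refine ⟨hbx, twelve h4 ?_⟩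
      have f1 : b * z ≤ (2 * l * z) * z := by
        refine mul_le_mul_of_nonneg_right ?_ (by linarith)
        have : (l + 1) * z ≤ (2 * l) * z := mul_le_mul_of_nonneg_right (by linarith) (by linarith)
        linarith
      have f3 : l * (16 * (z * T) - 48 * z ^ 2) ≤ l * T ^ 2 := by nlinarith
      have := le_of_mul (show 0 < l by linarith) f3
      linarith
    · right; left
      have haφ : a * φ = b + d * ψ := by linarith
      have e1 : (l + 1) * D ≥ (l + 1) * (Z1 * Y2 + Z2 * Y1 + 2 * (Z2 * Y2)) + b * Y2 := by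
        have f1 : b * (t * (ψ + 1)) ≤ b * (t * ((l + 1) * σ)) :=
          mul_le_mul_of_nonneg_left (mul_le_mul_of_nonneg_left h (by linarith)) hb
        have f2 : D = Z1 * Y2 + Z2 * Y1 + 2 * (Z2 * Y2) + b * (t * σ) + (d * ψ) * c := by
          rw [keyU, haφ, hcd, hZ2, hY2]; ring
        have f3 : 0 ≤ (l + 1) * ((d * ψ) * c) := by positivity
        have f5 : 0 ≤ b * t := mul_nonneg hb (by linarith)
        have f6 : b * Y2 = b * (t * ψ) := by rw [hY2]
        rw [f2, f6]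
        nlinarith
      have e2 : 4 * b ≤ (l + 1) * (T - 4 * z) := by
        by_contra hneg
        push Not at hneg
        have f1 : (l + 1) * (T - 4 * z) * Y2 < 4 * b * Y2 :=
          mul_lt_mul_of_pos_right hneg (by linarith)
        have f3 : T * T ≤ T * (4 * (Y2 + Z2)) := mul_le_mul_of_nonneg_left (by linarith) hT0.le
        have f4 : (l + 1) * (16 * D) ≤ (l + 1) * (4 * T * (Y2 + Z2)) := by
          refine mul_le_mul_of_nonneg_left ?_ (by linarith)
          nlinarith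
        -- `T Z2 ≤ 4 Z2 (Y1 + Y2)`
        have f5 : Z2 * T ≤ Z2 * (4 * (Y1 + Y2)) :=
          mul_le_mul_of_nonneg_left (by linarith) (by linarith)
        have f6 : (l + 1) * (Z2 * T) ≤ (l + 1) * (Z2 * (4 * (Y1 + Y2))) :=
          mul_le_mul_of_nonneg_left f5 (by linarith)
        have f7 : (l + 1) * (z * Y2) = (l + 1) * (Z1 * Y2 + Z2 * Y2) := by rw [hz]; ring
        nlinarith
      refine ⟨e2, nine (by linarith) hT0 ?_⟩
      have f1 : b * z * 4 ≤ (l + 1) * (T - 4 * z) * z := by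
        have := mul_le_mul_of_nonneg_right e2 (show 0 ≤ z by linarith)
        linarith
      have f2 : (l + 1) * (T - 4 * z) * z ≤ (2 * l) * (T - 4 * z) * z := by
        refine mul_le_mul_of_nonneg_right ?_ (by linarith)
        exact mul_le_mul_of_nonneg_right (by linarith) (by linarith)
      have f3 : l * (8 * (z * T) + 16 * z ^ 2) ≤ l * T ^ 2 := by nlinarith
      have := le_of_mul (show 0 < l by linarith) f3
      linarith
  · rw [abs_of_neg hb]
    obtain ⟨B, hBd⟩ : ∃ b, b = -(a * φ - d * ψ) := ⟨_, rfl⟩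
    have hB0 : 1 ≤ B := by rw [hBd]; linarith
    have hBd' : a * φ - d * ψ = -B := by linarith
    rw [hBd'] at key
    rw [← hBd]
    have h14 : 14 * z ≤ T := by
      apply fourteen (by linarith) h4
      have : 0 ≤ B * c := mul_nonneg (by linarith) (by linarith)
      linarith
    rcases hbind with h | h
    · right; right
      have hdψ : d * ψ = B + a * φ := by linarith
      have e1 : (l + 1) * D ≥ (l + 1) * (Z1 * Y2 + Z2 * Y1 + Z1 * Y1) + B * Y1 := by
        have f1 : B * (s * (φ + 1)) ≤ B * (s * ((l + 1) * e)) :=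
          mul_le_mul_of_nonneg_left (mul_le_mul_of_nonneg_left h (by linarith)) (by linarith)
        have f2 : D = Z1 * Y2 + Z2 * Y1 + Z1 * Y1 + (a * φ) * (t * σ) + B * (s * e) := by
          rw [keyU, hdψ, hZ1, hY1]; ring
        have f3 : 0 ≤ (l + 1) * ((a * φ) * (t * σ)) := by positivity
        have f5 : 0 ≤ B * s := mul_nonneg (by linarith) (by linarith)
        have f6 : B * Y1 = B * (s * φ) := by rw [hY1]
        rw [f2, f6]
        nlinarith
      refine ⟨?_, h14⟩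
      by_contra hneg
      push Not at hneg
      have f1 : (l + 1) * T * Y1 < 4 * B * Y1 := mul_lt_mul_of_pos_right hneg (by linarith)
      have f3 : T * T ≤ T * (4 * (Y1 + Z1)) := mul_le_mul_of_nonneg_left (by linarith) hT0.le
      have f4 : (l + 1) * (16 * D) ≤ (l + 1) * (4 * T * (Y1 + Z1)) := by
        refine mul_le_mul_of_nonneg_left ?_ (by linarith)
        nlinarith
      have f5 : Z1 * T ≤ Z1 * (4 * (Y1 + Y2)) :=
        mul_le_mul_of_nonneg_left (by linarith) (by linarith)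
      have f6 : (l + 1) * (Z1 * T) ≤ (l + 1) * (Z1 * (4 * (Y1 + Y2))) :=
        mul_le_mul_of_nonneg_left f5 (by linarith)
      have f7 : 0 ≤ (l + 1) * (Z2 * Y1) := by positivity
      nlinarith
    · left
      refine ⟨?_, by linarith⟩
      have e1 : d * (ψ + 1) ≤ d * ((l + 1) * σ) := mul_le_mul_of_nonneg_left h (by linarith)
      have e2 : (l + 1) * Z1 + (l + 1) * Z2 = (l + 1) * z := by rw [hz]; ring
      have e3 : d * ((l + 1) * σ) = (l + 1) * Z2 := by rw [hZ2]; ring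
      have e4 : 0 ≤ (l + 1) * Z1 := mul_nonneg (by linarith) (by linarith)
      linarith

end Pool.Agent.H48.SE
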